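import Mathlib
import Pool.Agent.Lib.MP_ca2859_nt.CRStable3
import Pool.Agent.Lib.MP_ca2859_nt.SB.Asm

/-!
# Potentially good families: the sharp exponent
-/

open Polynomial WithZero IsDedekindDomain NumberField

namespace Pool.Agent.Lib.MP_ca2859_nt

/-- the constant of the local inequality -/
def csF (g : ℕ) : ℕ := 2 ^ (8 * g + 4) * ((2 * g + 2).factorial) ^ ((2 * g + 1) * (2 * g + 2))

theorem csF_pos (g : ℕ) : 0 < csF g := by
  unfold csF
  have := Nat.factorial_pos (2 * g + 2)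
  positivity

section
variable {K : Type} [Field K] [NumberField K]

theorem ord_csF (g : ℕ) (v : HeightOneSpectrum (𝓞 K)) :
    ord (v.valuation K) ((csF g : ℕ) : K) = (8 * g + 4) * ord (v.valuation K) (2 : K) +
      (2 * g + 1) * (2 * g + 2) * ord (v.valuation K) ((2 * g + 2).factorial : K) := by
  have h1 : ((2 * g + 2).factorial : K) ≠ 0 := by
    rw [Nat.cast_ne_zero]; exact Nat.factorial_ne_zero _
  rw [csF, Nat.cast_mul, Nat.cast_pow, Nat.cast_pow,
    ord_mul (pow_ne_zero _ (by norm_num)) (pow_ne_zero _ h1), ord_pow, ord_pow]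
  push_cast
  ring

/-- local bound when the cross ratios are bounded -/
theorem caseA_localS (g : ℕ) (hg : 1 ≤ g) (p : Fin 4 → Fin (2 * g + 1 + 1)) (hp : Function.Injective p)
    (N : ℕ) (T : ℕ → MvPolynomial ℕ ℤ)
    (hT : ∀ (R : Type) [CommRing R] (a : R) (α : Fin (2 * g + 1 + 1) → R) (k : ℕ),
      MvPolynomial.aeval (fun i => (C a * ∏ j, (X - C (α j))).coeff i) (T k) =
        a ^ N * (CR p α).coeff k)
    (f : K[X]) (hf : IsHyperelliptic g f) (hfd : f.natDegree = 2 * g + 1 + 1) (m : ℕ) (hm : 0 < m)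
    (v : HeightOneSpectrum (𝓞 K))
    (hA : ∀ k ≤ Fintype.card (Equiv.Perm (Fin (2 * g + 1 + 1))),
      v.valuation K (m : K) * v.valuation K (MvPolynomial.aeval (fun i => f.coeff i) (T k)) ≤
      v.valuation K (MvPolynomial.aeval (fun i => f.coeff i)
        (T (Fintype.card (Equiv.Perm (Fin (2 * g + 1 + 1))))))) :
    (discExp g f v : ℤ) ≤ (2 * g + 1) * (2 * ((g + 1) / 2 + 1)) +
      ord (v.valuation K) ((2 ^ (4 * g) * m ^ (4 * ((2 * g + 1) * (2 * g))) : ℕ) : K) +
      ord (v.valuation K) ((csF g : ℕ) : K) := by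
  have h12 : (⟨0, by omega⟩ : Fin (2 * g + 1)) ≠ ⟨1, by omega⟩ := by
    intro h; exact absurd (congrArg Fin.val h) (by norm_num)
  obtain ⟨L, _, _, _, a, e, α, ha0, hα, hfα, he⟩ := exists_big_field g hg f hf hfd m hm _ _ h12
  obtain ⟨w, hw⟩ := exists_place_above (K := K) (L := L) v
  set e' := Ideal.ramificationIdx' v.asIdeal w.asIdeal with he'
  have he0 : e' ≠ 0 := Ideal.IsDedekindDomain.ramificationIdx'_ne_zero_of_liesOver w.asIdeal v.ne_bot
  have hvw : ∀ x : K, w.valuation L (algebraMap K L x) = v.valuation K x ^ e' := fun x =>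
    (HeightOneSpectrum.valuation_liesOver L v w x).symm
  have hwm : w.valuation L (m : L) = v.valuation K (m : K) ^ e' := by
    have h1 := hvw (m : K)
    rwa [map_natCast (algebraMap K L)] at h1
  have hm1 : w.valuation L (m : L) ≤ 1 := natCast_le_one _ _
  have hmL : (m : L) ≠ 0 := by exact_mod_cast hm.ne'
  -- the coefficients of the polynomial of cross ratios
  have hcoef : ∀ k, w.valuation L (m : L) * w.valuation L ((CR p α).coeff k) ≤
      w.valuation L ((CR p α).coeff (Fintype.card (Equiv.Perm (Fin (2 * g + 1 + 1))))) := by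
    intro k
    by_cases hkD : k ≤ Fintype.card (Equiv.Perm (Fin (2 * g + 1 + 1)))
    swap
    · have h1 : (CR p α).coeff k = 0 := by
        apply coeff_eq_zero_of_natDegree_lt
        have h2 : (CR p α).natDegree ≤ ∑ σ : Equiv.Perm (Fin (2 * g + 1 + 1)), 1 := by
          rw [CR]
          exact (natDegree_prod_le _ _).trans (Finset.sum_le_sum fun σ _ => CR_natDegree_le p α σ)
        rw [Finset.sum_const, Finset.card_univ, smul_eq_mul, mul_one] at h2
        omega
      rw [h1, map_zero, mul_zero]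
      exact zero_le
    have h1 := pow_le_pow_left₀ zero_le (hA k hkD) e'
    rw [mul_pow, ← hwm, ← hvw, ← hvw, map_aeval_coeff, map_aeval_coeff, hfα, hT, hT, map_mul, map_mul,
      mul_left_comm] at h1
    have hapos : 0 < w.valuation L (a ^ N) := zero_lt_iff.2 (by
      rw [Ne, Valuation.zero_iff]; exact pow_ne_zero _ ha0)
    exact (mul_le_mul_iff_right₀ hapos).1 h1
  have hcr := cross_le (w := w.valuation L) p hp α hα _ hm1 hcoef
  obtain ⟨P, hP1, hP2, hP3⟩ := exists_model_of_cross (w := w.valuation L) g hg (m : L) hmL hm1 a α hα hcr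
    _ _ h12 e he
  rw [← hfα] at hP1
  -- the exponent upstairs
  have hordZ : ord (w.valuation L) (2 ^ (4 * g) * (m : L) ^ (4 * ((2 * g + 1) * (2 * g)))) =
      e' * ord (v.valuation K) ((2 ^ (4 * g) * m ^ (4 * ((2 * g + 1) * (2 * g))) : ℕ) : K) := by
    have h1 : (2 ^ (4 * g) * (m : L) ^ (4 * ((2 * g + 1) * (2 * g)))) =
        algebraMap K L ((2 ^ (4 * g) * m ^ (4 * ((2 * g + 1) * (2 * g))) : ℕ) : K) := by
      rw [map_natCast (algebraMap K L)]; push_cast; ring
    rw [h1, ord, hvw, log_pow, ord]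
    simp
  have hle1 : w.valuation L (eqDisc g (f0 P 0)) ≤ 1 := by
    rw [f0_zero]
    exact eqDisc_le_one g hP1.intP
  have hord0 : 0 ≤ ord (w.valuation L) (eqDisc g (f0 P 0)) := ord_nonneg hle1
  obtain ⟨k', hk'⟩ := Int.eq_ofNat_of_zero_le hord0
  have hn : discExp g (f.map (algebraMap K L)) w ≤ k' := by
    apply minDiscExp_le
    refine ⟨P, 0, hP1, ?_⟩
    rw [w_eq_exp hP2, hk']
  have hZ0 : (2 ^ (4 * g) * (m : L) ^ (4 * ((2 * g + 1) * (2 * g)))) ≠ 0 :=
    mul_ne_zero (pow_ne_zero _ two_ne_zero) (pow_ne_zero _ hmL)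
  have hkZ : (k' : ℤ) ≤ e' * ord (v.valuation K)
      ((2 ^ (4 * g) * m ^ (4 * ((2 * g + 1) * (2 * g))) : ℕ) : K) := by
    rw [← hordZ, ← hk']
    rw [w_eq_exp hZ0, w_eq_exp hP2, exp_le_exp] at hP3
    linarith
  have hb := SB.local_split (L := L) g hg f hf hfd v w
  rw [← ord_csF] at hb
  rw [← he'] at hb
  have he'pos : (0 : ℤ) < e' := by exact_mod_cast Nat.pos_of_ne_zero he0
  have hn' : (discExp g (f.map (algebraMap K L)) w : ℤ) ≤ e' * ord (v.valuation K)
      ((2 ^ (4 * g) * m ^ (4 * ((2 * g + 1) * (2 * g))) : ℕ) : K) :=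
    le_trans (by exact_mod_cast hn) hkZ
  have h3 : (e' : ℤ) * discExp g f v ≤ e' * ((2 * g + 1) * (2 * ((g + 1) / 2 + 1)) +
      ord (v.valuation K) ((2 ^ (4 * g) * m ^ (4 * ((2 * g + 1) * (2 * g))) : ℕ) : K) +
      ord (v.valuation K) ((csF g : ℕ) : K)) := by
    calc (e' : ℤ) * discExp g f v ≤ _ := hb
      _ ≤ e' * ((2 * g + 1) * (2 * ((g + 1) / 2 + 1)) + ord (v.valuation K) ((csF g : ℕ) : K)) +
          (e' * ord (v.valuation K)
          ((2 ^ (4 * g) * m ^ (4 * ((2 * g + 1) * (2 * g))) : ℕ) : K)) := by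
        linarith
      _ = _ := by ring
  exact le_of_mul_le_mul_left h3 he'pos

/-- global bound when the cross ratios are bounded -/
theorem caseA_globalS (g : ℕ) (f : K[X]) (hf : IsHyperelliptic g f) (Z : ℕ) (hZ : 0 < Z)
    (h : ∀ v : HeightOneSpectrum (𝓞 K), (discExp g f v : ℤ) ≤ (2 * g + 1) * (2 * ((g + 1) / 2 + 1)) +
      ord (v.valuation K) ((Z : ℕ) : K) + ord (v.valuation K) ((csF g : ℕ) : K)) :
    DeltaC g f ≤ (Z * csF g) ^ Module.finrank ℚ K *
      MC g f ^ ((2 * g + 1) * (2 * ((g + 1) / 2 + 1))) := by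
  classical
  set S := (finite_bad g f hf).toFinset with hS
  have hD : DeltaC g f = ∏ v ∈ S, Ideal.absNorm v.asIdeal ^ discExp g f v := by
    rw [DeltaC, finprod_eq_prod_of_mulSupport_subset (s := S)]
    intro v hv
    rw [hS, Finset.mem_coe, Set.Finite.mem_toFinset]
    intro h0
    exact hv (by simp [h0])
  have hM : MC g f = ∏ v ∈ S, Ideal.absNorm v.asIdeal := by
    rw [MC, finprod_eq_prod_of_mulSupport_subset (s := S)]
    · refine Finset.prod_congr rfl (fun v hv => ?_)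
      rw [if_neg]
      rw [hS, Set.Finite.mem_toFinset] at hv
      exact hv
    · intro v hv
      rw [hS, Finset.mem_coe, Set.Finite.mem_toFinset]
      intro h0
      exact hv (by simp [h0])
  have hc0 : 0 < Z * csF g := Nat.mul_pos hZ (csF_pos g)
  have hle : ∀ v, discExp g f v ≤ (2 * g + 1) * (2 * ((g + 1) / 2 + 1)) + cnt (Z * csF g) v := by
    intro v
    have h1 := h v
    have h2 := ord_eq_cnt _ hc0 v
    have hZ0 : ((Z : ℕ) : K) ≠ 0 := by exact_mod_cast hZ.ne'
    have hcst0 : ((csF g : ℕ) : K) ≠ 0 := by exact_mod_cast (csF_pos g).ne'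
    have h3 : ord (v.valuation K) ((Z * csF g : ℕ) : K) =
        ord (v.valuation K) ((Z : ℕ) : K) + ord (v.valuation K) ((csF g : ℕ) : K) := by
      rw [Nat.cast_mul, ord_mul hZ0 hcst0]
    have h4 : (discExp g f v : ℤ) ≤ (2 * g + 1) * (2 * ((g + 1) / 2 + 1)) + cnt (Z * csF g) v := by
      rw [← h2, h3]
      linarith
    exact_mod_cast h4
  rw [hD, hM, ← Finset.prod_pow]
  calc ∏ v ∈ S, Ideal.absNorm v.asIdeal ^ discExp g f v
      ≤ ∏ v ∈ S, (Ideal.absNorm v.asIdeal ^ cnt (Z * csF g) v *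
        Ideal.absNorm v.asIdeal ^ ((2 * g + 1) * (2 * ((g + 1) / 2 + 1)))) := by
        apply Finset.prod_le_prod'
        intro v _
        rw [← pow_add]
        exact Nat.pow_le_pow_right (by have := one_le_absNorm v; omega) (by have := hle v; omega)
    _ = (∏ v ∈ S, Ideal.absNorm v.asIdeal ^ cnt (Z * csF g) v) *
        ∏ v ∈ S, Ideal.absNorm v.asIdeal ^ ((2 * g + 1) * (2 * ((g + 1) / 2 + 1))) := Finset.prod_mul_distrib
    _ ≤ _ := Nat.mul_le_mul_right _ (prod_cnt_le _ hc0 S)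

end

end Pool.Agent.Lib.MP_ca2859_nt
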