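import Mathlib
import Pool.Agent.Lib.MP_ca2859_nt.FamA
import Pool.Agent.Lib.MP_ca2859_nt.Box

/-!
# Sizes of values and counts of zeros in weighted boxes
-/

open NumberField MvPolynomial

set_option linter.unusedSectionVars false

namespace Pool.Agent.Lib.MP_ca2859_nt

section
variable {K : Type} [Field K] [NumberField K]

theorem place_evalW {m : ℕ} (wt : Fin m → ℕ) (G : MvPolynomial (Fin m) (𝓞 K)) (e : ℕ)
    (he : ∀ s ∈ G.support, ∑ j, wt j * s j ≤ e) (B : ℝ)
    (hB : 1 ≤ B) (t : Fin m → 𝓞 K) (ht : ∀ j, ∀ w : InfinitePlace K, w ((t j : 𝓞 K) : K) ≤ B ^ wt j)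
    (w : InfinitePlace K) : w ((eval t G : 𝓞 K) : K) ≤ coefW G * B ^ e := by
  classical
  have h1 : ((eval t G : 𝓞 K) : K) =
      ∑ s ∈ G.support, ((G.coeff s : 𝓞 K) : K) * ∏ j, ((t j : 𝓞 K) : K) ^ s j := by
    rw [eval_eq']
    push_cast
    rfl
  rw [h1]
  refine (place_sum_le' w _ _).trans ?_
  have hterm : ∀ s ∈ G.support, w (((G.coeff s : 𝓞 K) : K) * ∏ j, ((t j : 𝓞 K) : K) ^ s j) ≤
      w ((G.coeff s : 𝓞 K) : K) * B ^ e := by
    intro s hs
    have h2 : w (((G.coeff s : 𝓞 K) : K) * ∏ j, ((t j : 𝓞 K) : K) ^ s j) =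
        w ((G.coeff s : 𝓞 K) : K) * ∏ j, w ((t j : 𝓞 K) : K) ^ s j := by
      have h3 : w (((G.coeff s : 𝓞 K) : K) * ∏ j, ((t j : 𝓞 K) : K) ^ s j) =
        w ((G.coeff s : 𝓞 K) : K) * w (∏ j, ((t j : 𝓞 K) : K) ^ s j) := map_mul w _ _
      rw [h3, map_prod]
      congr 1
      apply Finset.prod_congr rfl
      intro j _
      exact map_pow w _ _
    rw [h2]
    have h4 : ∏ j, w ((t j : 𝓞 K) : K) ^ s j ≤ B ^ e := by
      calc ∏ j, w ((t j : 𝓞 K) : K) ^ s j ≤ ∏ j, B ^ (wt j * s j) := by
            apply Finset.prod_le_prod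
            · intro j _; exact pow_nonneg (apply_nonneg w _) _
            · intro j _
              rw [pow_mul]
              exact pow_le_pow_left₀ (apply_nonneg w _) (ht j w) _
        _ = B ^ (∑ j, wt j * s j) := by rw [Finset.prod_pow_eq_pow_sum]
        _ ≤ B ^ e := pow_le_pow_right₀ hB (he s hs)
    have h6 : 0 ≤ w ((G.coeff s : 𝓞 K) : K) := apply_nonneg w _
    gcongr
  calc ∑ s ∈ G.support, w (((G.coeff s : 𝓞 K) : K) * ∏ j, ((t j : 𝓞 K) : K) ^ s j)
      ≤ ∑ s ∈ G.support, w ((G.coeff s : 𝓞 K) : K) * B ^ e := Finset.sum_le_sum hterm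
    _ = (∑ s ∈ G.support, w ((G.coeff s : 𝓞 K) : K)) * B ^ e := by rw [Finset.sum_mul]
    _ ≤ coefW G * B ^ e := by
        have h7 : ∑ s ∈ G.support, w ((G.coeff s : 𝓞 K) : K) ≤
            ∑ w : InfinitePlace K, ∑ s ∈ G.support, w ((G.coeff s : 𝓞 K) : K) :=
          Finset.single_le_sum (f := fun w : InfinitePlace K => ∑ s ∈ G.support, w ((G.coeff s : 𝓞 K) : K))
            (fun w _ => Finset.sum_nonneg fun j _ => apply_nonneg w _) (Finset.mem_univ w)
        rw [coefW]
        have : (0:ℝ) ≤ B ^ e := by positivity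
        gcongr
        linarith

variable {ι : Type} [Fintype ι]

/-- zeros of a polynomial in a product of boxes with at least `N` elements -/
theorem zero_countW (ω : Module.Basis ι ℤ (𝓞 K)) (r : ℕ) (Bx : Fin (r + 1) → Finset (ι → ℤ))
    (N : ℕ) (hN : 0 < N) (hBx : ∀ i, N ≤ (Bx i).card)
    (G : MvPolynomial (Fin (r + 1)) (𝓞 K)) (hG : G ≠ 0)
    (S : Finset (Fin (r + 1) → ι → ℤ)) (hS : S ⊆ Fintype.piFinset Bx)
    (hS0 : ∀ a ∈ S, eval (fun i => coordInt (K := K) ω (a i)) G = 0) :
    (S.card : ℝ) * N ≤ G.totalDegree * ∏ i, ((Bx i).card : ℝ) := by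
  classical
  set B' : Fin (r + 1) → Finset (𝓞 K) := fun i => (Bx i).image (coordInt (K := K) ω) with hB'
  have hcard : ∀ i, (B' i).card = (Bx i).card := fun i =>
    Finset.card_image_of_injective _ (coordInt_inj ω)
  have h1 := schwartz_zippel_sup_sum hG B'
  set Z : Finset (Fin (r + 1) → 𝓞 K) := (Fintype.piFinset B').filter
    (fun f => eval f G = 0) with hZ
  have h2 : S.card ≤ Z.card := by
    apply Finset.card_le_card_of_injOn (fun a i => coordInt (K := K) ω (a i))
    · intro a ha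
      rw [Finset.mem_coe] at ha
      rw [Finset.mem_coe, hZ, Finset.mem_filter, Fintype.mem_piFinset]
      refine ⟨fun i => ?_, hS0 a ha⟩
      exact Finset.mem_image_of_mem _ (Fintype.mem_piFinset.1 (hS ha) i)
    · intro a _ b _ hab
      funext i
      exact coordInt_inj ω (congrFun hab i)
  have hNQ : (0 : ℚ≥0) < N := by exact_mod_cast hN
  have hpos : ∀ i, (0 : ℚ≥0) < (B' i).card := by
    intro i
    rw [hcard]
    exact_mod_cast lt_of_lt_of_le hN (hBx i)
  have hprod : (0 : ℚ≥0) < ∏ i, ((B' i).card : ℚ≥0) := Finset.prod_pos fun i _ => hpos i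
  have h3 : (G.support.sup fun s => ∑ i, ((s i : ℚ≥0) / (B' i).card : ℚ≥0)) ≤ (G.totalDegree : ℚ≥0) / N := by
    apply Finset.sup_le
    intro s hs
    have h4 := le_totalDegree hs
    rw [Finsupp.sum_fintype _ _ (by simp)] at h4
    calc ∑ i, ((s i : ℚ≥0) / (B' i).card : ℚ≥0) ≤ ∑ i, ((s i : ℚ≥0) / N : ℚ≥0) := by
          apply Finset.sum_le_sum
          intro i _
          have h5 : (N : ℚ≥0) ≤ (B' i).card := by rw [hcard]; exact_mod_cast hBx i
          gcongr
      _ = ((∑ i, s i : ℕ) : ℚ≥0) / N := by push_cast; rw [Finset.sum_div]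
      _ ≤ (G.totalDegree : ℚ≥0) / N := by gcongr
  have h4 : ((Z.card : ℚ≥0)) / ∏ i, ((B' i).card : ℚ≥0) ≤ (G.totalDegree : ℚ≥0) / N := h1.trans h3
  rw [div_le_div_iff₀ hprod hNQ] at h4
  have h5 : Z.card * N ≤ G.totalDegree * ∏ i, (B' i).card := by exact_mod_cast h4
  simp only [hcard] at h5
  have h6 : S.card * N ≤ G.totalDegree * ∏ i, (Bx i).card :=
    (Nat.mul_le_mul_right _ h2).trans h5
  exact_mod_cast h6

theorem coord_countW {m : ℕ} {B : Type} [DecidableEq B] (Bx : Fin m → Finset B) (i₀ : Fin m)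
    (S : Finset (Fin m → B)) (hS : S ⊆ Fintype.piFinset Bx) (c : ℝ) (hc0 : 0 ≤ c)
    (hc : ∀ a ∈ Fintype.piFinset Bx,
      (((Bx i₀).filter (fun t => Function.update a i₀ t ∈ S)).card : ℝ) ≤ c) :
    (S.card : ℝ) * (Bx i₀).card ≤ c * ∏ i, ((Bx i).card : ℝ) := by
  classical
  rcases S.eq_empty_or_nonempty with rfl | ⟨a₀, ha₀⟩
  · simp only [Finset.card_empty, Nat.cast_zero, zero_mul]
    positivity
  · have ha₀' := hS ha₀
    set b₀ := a₀ i₀ with hb₀
    have hb₀' : b₀ ∈ Bx i₀ := (Fintype.mem_piFinset.1 ha₀') i₀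
    set r : (Fin m → B) → (Fin m → B) := fun a => Function.update a i₀ b₀ with hr
    have himg : (S.image r).card * (Bx i₀).card ≤ ∏ i, (Bx i).card := by
      have h1 : S.image r ⊆ Fintype.piFinset (fun i => if i = i₀ then {b₀} else Bx i) := by
        intro b hb
        obtain ⟨a, ha, rfl⟩ := Finset.mem_image.1 hb
        rw [Fintype.mem_piFinset]
        intro i
        simp only [hr]
        by_cases hi : i = i₀
        · subst hi
          simp
        · rw [if_neg hi, Function.update_of_ne hi]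
          exact (Fintype.mem_piFinset.1 (hS ha)) i
      refine (Nat.mul_le_mul_right _ (Finset.card_le_card h1)).trans (le_of_eq ?_)
      rw [Fintype.card_piFinset, ← Finset.mul_prod_erase Finset.univ _ (Finset.mem_univ i₀),
        ← Finset.mul_prod_erase Finset.univ (fun i => (Bx i).card) (Finset.mem_univ i₀)]
      simp only [if_true, Finset.card_singleton, one_mul]
      rw [mul_comm]
      congr 1
      apply Finset.prod_congr rfl
      intro i hi
      rw [if_neg (Finset.ne_of_mem_erase hi)]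
    have hfib : ∀ b ∈ S.image r, ((S.filter (fun a => r a = b)).card : ℝ) ≤ c := by
      intro b hb
      obtain ⟨a₁, ha₁, rfl⟩ := Finset.mem_image.1 hb
      have hb' : r a₁ ∈ Fintype.piFinset Bx := by
        rw [Fintype.mem_piFinset]
        intro i
        simp only [hr]
        by_cases hi : i = i₀
        · subst hi; rw [Function.update_self]; exact hb₀'
        · rw [Function.update_of_ne hi]; exact (Fintype.mem_piFinset.1 (hS ha₁)) i
      refine le_trans ?_ (hc _ hb')
      have h1 : (S.filter (fun a => r a = r a₁)).card ≤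
          ((Bx i₀).filter (fun t => Function.update (r a₁) i₀ t ∈ S)).card := by
        have hrec : ∀ a, r a = r a₁ → Function.update (r a₁) i₀ (a i₀) = a := by
          intro a h
          rw [← h]
          simp only [hr]
          rw [Function.update_idem, Function.update_eq_self]
        apply Finset.card_le_card_of_injOn (fun a => a i₀)
        · intro a ha
          rw [Finset.mem_coe, Finset.mem_filter] at ha
          rw [Finset.mem_coe, Finset.mem_filter]
          refine ⟨(Fintype.mem_piFinset.1 (hS ha.1)) i₀, ?_⟩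
          rw [hrec a ha.2]; exact ha.1
        · intro a ha a' ha' haa
          rw [Finset.mem_coe, Finset.mem_filter] at ha ha'
          simp only at haa
          rw [← hrec a ha.2, ← hrec a' ha'.2, haa]
      exact_mod_cast h1
    have hsum := Finset.card_eq_sum_card_image r S
    have h7 : (S.card : ℝ) ≤ ((S.image r).card : ℝ) * c := by
      calc (S.card : ℝ) = ∑ b ∈ S.image r, ((S.filter (fun a => r a = b)).card : ℝ) := by
            rw [hsum]; push_cast; rfl
        _ ≤ ∑ b ∈ S.image r, c := Finset.sum_le_sum hfib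
        _ = ((S.image r).card : ℝ) * c := by rw [Finset.sum_const, nsmul_eq_mul]
    have h8 : ((S.image r).card : ℝ) * (Bx i₀).card ≤ ∏ i, ((Bx i).card : ℝ) := by
      exact_mod_cast himg
    calc (S.card : ℝ) * (Bx i₀).card ≤ (((S.image r).card : ℝ) * c) * (Bx i₀).card := by gcongr
      _ = c * (((S.image r).card : ℝ) * (Bx i₀).card) := by ring
      _ ≤ c * ∏ i, ((Bx i).card : ℝ) := by gcongr

end

end Pool.Agent.Lib.MP_ca2859_nt
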