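import Mathlib
import Pool.Agent.Lib.MP_ca2859_nt.FamC
import Pool.Agent.Lib.MP_ca2859_nt.PF.CaseA
import Pool.Agent.Lib.MP_ca2859_nt.PF.Count

/-!
# Families in weighted boxes: the main count
-/

open NumberField Polynomial IsDedekindDomain WithZero

set_option linter.unusedSectionVars false

namespace Pool.Agent.Lib.MP_ca2859_nt

section
variable {K : Type} [Field K] [NumberField K] {ι : Type} [Fintype ι]

/-- the member of the family with integral coordinates `a` -/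
noncomputable def membW (ω : Module.Basis ι ℤ (𝓞 K)) {r : ℕ} (F : (MvPolynomial (Fin r) (𝓞 K))[X])
    (a : Fin r → ι → ℤ) : K[X] :=
  (spec F (fun j => coordInt ω (a j))).map (algebraMap (𝓞 K) K)

/-- the isotrivial-like case: bound for all members, sharp exponent -/
theorem boundAS {r : ℕ} (g : ℕ) (hg : 1 ≤ g) (cr : CRData g)
    (F : (MvPolynomial (Fin (r + 1)) (𝓞 K))[X]) (hFd : F.natDegree ≤ 2 * g + 1 + 1)
    (m : ℕ) (hm : 0 < m) (h : ∀ k ≤ cr.top, ∃ s, (m : MvPolynomial (Fin (r + 1)) (𝓞 K)) * evT F (cr.T k) =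
      evT F (cr.T cr.top) * s) (t : Fin (r + 1) → 𝓞 K)
    (hl : MvPolynomial.eval t (F.coeff (2 * g + 1 + 1)) ≠ 0)
    (hD : MvPolynomial.eval t (RR (2 * g + 2) F) ≠ 0) :
    IsHyperelliptic g ((spec F t).map (algebraMap (𝓞 K) K)) ∧
    DeltaC g ((spec F t).map (algebraMap (𝓞 K) K)) ≤
      ((2 ^ (4 * g) * m ^ (4 * ((2 * g + 1) * (2 * g)))) * csF g) ^ Module.finrank ℚ K *
      MC g ((spec F t).map (algebraMap (𝓞 K) K)) ^ ((2 * g + 1) * (2 * ((g + 1) / 2 + 1))) := by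
  set f := (spec F t).map (algebraMap (𝓞 K) K) with hf
  obtain ⟨hyp, hfd⟩ := spec_hyper g F hFd t hl hD
  rw [← hf] at hyp hfd
  refine ⟨hyp, ?_⟩
  apply caseA_globalS g f hyp (2 ^ (4 * g) * m ^ (4 * ((2 * g + 1) * (2 * g)))) (by positivity)
  intro v
  apply caseA_localS g hg cr.p cr.hp cr.N cr.T cr.hT f hyp hfd m hm v
  intro k hk
  have hTk : evT f (cr.T k) = algebraMap (𝓞 K) K (MvPolynomial.eval t (evT F (cr.T k))) := spec_aeval F t _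
  have hTt : evT f (cr.T cr.top) = algebraMap (𝓞 K) K (MvPolynomial.eval t (evT F (cr.T cr.top))) :=
    spec_aeval F t _
  change v.valuation K (m : K) * v.valuation K (evT f (cr.T k)) ≤ v.valuation K (evT f (cr.T cr.top))
  obtain ⟨s, hs⟩ := h k hk
  have h3 := congrArg (fun G => v.valuation K (algebraMap (𝓞 K) K (MvPolynomial.eval t G))) hs
  simp only [map_mul, map_natCast] at h3
  rw [← hTk, ← hTt] at h3
  rw [h3]
  have hs1 : v.valuation K (algebraMap (𝓞 K) K (MvPolynomial.eval t s)) ≤ 1 :=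
    HeightOneSpectrum.valuation_le_one v _
  calc v.valuation K (evT f (cr.T cr.top)) * v.valuation K (algebraMap (𝓞 K) K (MvPolynomial.eval t s))
      ≤ v.valuation K (evT f (cr.T cr.top)) * 1 := mul_le_mul' le_rfl hs1
    _ = _ := mul_one _

theorem arithW (d m W₀ n : ℕ) (H A θ x : ℝ) (hH : 1 ≤ H)
    (h : x * (H ^ m) ^ d ≤ (A * H ^ ((d : ℝ) * θ)) * (3 ^ n * H ^ (d * W₀))) :
    x ≤ (A * 3 ^ n) * H ^ ((d : ℝ) * ((W₀ : ℝ) - m + θ)) := by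
  have hH0 : 0 < H := by linarith
  have hN : 0 < (H ^ m) ^ d := by positivity
  have h1 : (A * 3 ^ n) * H ^ ((d : ℝ) * ((W₀ : ℝ) - m + θ)) * (H ^ m) ^ d =
      (A * H ^ ((d : ℝ) * θ)) * (3 ^ n * H ^ (d * W₀)) := by
    rw [← pow_mul, ← Real.rpow_natCast H (m * d), ← Real.rpow_natCast H (d * W₀)]
    have h2 : H ^ ((d : ℝ) * ((W₀ : ℝ) - m + θ)) * H ^ ((m * d : ℕ) : ℝ) =
        H ^ ((d : ℝ) * θ) * H ^ ((d * W₀ : ℕ) : ℝ) := by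
      rw [← Real.rpow_add hH0, ← Real.rpow_add hH0]
      congr 1
      push_cast
      ring
    calc (A * 3 ^ n) * H ^ ((d : ℝ) * ((W₀ : ℝ) - m + θ)) * H ^ ((m * d : ℕ) : ℝ)
        = (A * 3 ^ n) * (H ^ ((d : ℝ) * ((W₀ : ℝ) - m + θ)) * H ^ ((m * d : ℕ) : ℝ)) := by ring
      _ = (A * 3 ^ n) * (H ^ ((d : ℝ) * θ) * H ^ ((d * W₀ : ℕ) : ℝ)) := by rw [h2]
      _ = _ := by ring
  rw [← h1] at h
  exact le_of_mul_le_mul_right h hN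

theorem finishW (d m W₀ n : ℕ) (H A θ x PB : ℝ) (hH : 1 ≤ H) (hA : 0 ≤ A) (hθ : 0 ≤ θ)
    (hPB : PB ≤ 3 ^ n * H ^ (d * W₀)) (hPB0 : 0 ≤ PB)
    (h : x * (H ^ m) ^ d ≤ (A * H ^ ((d : ℝ) * θ)) * PB) :
    x ≤ (A * 3 ^ n) * H ^ ((d : ℝ) * ((W₀ : ℝ) - m + θ)) := by
  have hH0 : 0 < H := by linarith
  apply arithW d m W₀ n H A θ x hH
  refine h.trans ?_
  have : 0 ≤ A * H ^ ((d : ℝ) * θ) := by positivity
  exact mul_le_mul_of_nonneg_left hPB this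

theorem finishW'' (d m W₀ n : ℕ) (H a0 a1 a2 a3 a4 c₁ θ x x0 x1 x2 x3 x4 x5 PB c : ℝ) (hH : 1 ≤ H)
    (ha0 : 0 ≤ a0) (ha1 : 0 ≤ a1) (ha2 : 0 ≤ a2) (ha3 : 0 ≤ a3) (ha4 : 0 ≤ a4) (hc1 : 0 ≤ c₁)
    (hθ : 0 ≤ θ) (hPB : PB ≤ 3 ^ n * H ^ (d * W₀)) (hPB0 : 0 ≤ PB)
    (hx : x ≤ x0 + (x1 + (x2 + (x3 + (x4 + x5)))))
    (h0 : x0 * (H ^ m) ^ d ≤ a0 * PB) (h1 : x1 * (H ^ m) ^ d ≤ a1 * PB)
    (h2 : x2 * (H ^ m) ^ d ≤ a2 * PB) (h3 : x3 * (H ^ m) ^ d ≤ a3 * PB)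
    (h4 : x4 * (H ^ m) ^ d ≤ a4 * PB)
    (h5 : x5 * (H ^ m) ^ d ≤ (c₁ * H ^ ((d:ℝ) * θ)) * PB)
    (hc : (a0 + a1 + a2 + a3 + a4 + c₁) * 3 ^ n ≤ c) :
    x ≤ c * H ^ ((d : ℝ) * ((W₀ : ℝ) - m + θ)) := by
  have hH0 : 0 < H := by linarith
  have hN : 0 < (H ^ m) ^ d := by positivity
  have h6 : (1:ℝ) ≤ H ^ ((d:ℝ) * θ) := Real.one_le_rpow hH (by positivity)
  have h7 := finishW d m W₀ n H (a0 + a1 + a2 + a3 + a4 + c₁) θ x PB hH (by positivity) hθ hPB hPB0 (by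
    have h8 : 0 ≤ a0 + a1 + a2 + a3 + a4 := by positivity
    calc x * (H ^ m) ^ d ≤ (x0 + (x1 + (x2 + (x3 + (x4 + x5))))) * (H ^ m) ^ d :=
          mul_le_mul_of_nonneg_right hx hN.le
      _ = x0 * (H ^ m) ^ d + x1 * (H ^ m) ^ d + x2 * (H ^ m) ^ d + x3 * (H ^ m) ^ d +
          x4 * (H ^ m) ^ d + x5 * (H ^ m) ^ d := by ring
      _ ≤ ((a0 + a1 + a2 + a3 + a4) * 1) * PB + (c₁ * H ^ ((d:ℝ) * θ)) * PB := by linarith
      _ ≤ ((a0 + a1 + a2 + a3 + a4) * H ^ ((d:ℝ) * θ)) * PB + (c₁ * H ^ ((d:ℝ) * θ)) * PB := by gcongr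
      _ = ((a0 + a1 + a2 + a3 + a4 + c₁) * H ^ ((d:ℝ) * θ)) * PB := by ring)
  refine h7.trans ?_
  gcongr

/-- weighted boxes -/
theorem boxW_facts (ω : Module.Basis ι ℤ (𝓞 K)) {n : ℕ} (wt : Fin n → ℕ) (m : ℕ) (hwt : ∀ i, m ≤ wt i)
    (H : ℕ) (hH : 1 ≤ H) : ∃ Bx : Fin n → Finset (ι → ℤ),
    (∀ i t, t ∈ Bx i ↔ ∀ j, |t j| ≤ ((H ^ wt i : ℕ) : ℤ)) ∧
    (∀ i, (H ^ m) ^ Module.finrank ℚ K ≤ (Bx i).card) ∧
    ∏ i, ((Bx i).card : ℝ) ≤ 3 ^ (Module.finrank ℚ K * n) *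
      (H : ℝ) ^ (Module.finrank ℚ K * ∑ i, wt i) := by
  have h1 : ∀ i, ∃ Bx : Finset (ι → ℤ), (∀ t, t ∈ Bx ↔ ∀ j, |t j| ≤ ((H ^ wt i : ℕ) : ℤ)) ∧
      (Bx.card : ℝ) = (2 * ((H ^ wt i : ℕ) : ℝ) + 1) ^ Module.finrank ℚ K := by
    intro i
    obtain ⟨B, hB1, hB2, -⟩ := box_facts ω (H ^ wt i)
    exact ⟨B, hB1, hB2⟩
  choose Bx hB1 hB2 using h1
  have hH1 : (1:ℝ) ≤ H := by exact_mod_cast hH
  refine ⟨Bx, hB1, ?_, ?_⟩
  · intro i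
    have h2 : ((H ^ m) ^ Module.finrank ℚ K : ℝ) ≤ ((Bx i).card : ℝ) := by
      rw [hB2 i]
      have h3 : (H : ℝ) ^ m ≤ (H : ℝ) ^ wt i := pow_le_pow_right₀ hH1 (hwt i)
      push_cast
      gcongr
      have : (0:ℝ) ≤ (H : ℝ) ^ wt i := by positivity
      linarith
    exact_mod_cast h2
  · calc ∏ i, ((Bx i).card : ℝ) ≤ ∏ i, (3 * (H : ℝ) ^ wt i) ^ Module.finrank ℚ K := by
          apply Finset.prod_le_prod
          · intro i _; positivity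
          · intro i _
            rw [hB2 i]
            have : (1:ℝ) ≤ (H : ℝ) ^ wt i := one_le_pow₀ hH1
            push_cast
            gcongr
            linarith
      _ = 3 ^ (Module.finrank ℚ K * n) * (H : ℝ) ^ (Module.finrank ℚ K * ∑ i, wt i) := by
          rw [Finset.prod_pow, Finset.prod_mul_distrib, Finset.prod_const, Finset.card_univ,
            Fintype.card_fin, Finset.prod_pow_eq_pow_sum, mul_pow, ← pow_mul, ← pow_mul,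
            mul_comm n, mul_comm (∑ i, wt i)]

/-- the size estimate -/
theorem sizeW (d g D W₀ e₁ : ℕ) (c₀ q₁ CD W κ θ ε : ℝ) (hc₀ : 0 < c₀) (hq₁ : 1 ≤ q₁) (hCD : 1 ≤ CD)
    (hW : 1 ≤ W) (hκ0 : 0 < κ) (hε0 : 0 < ε)
    (hε : (D : ℝ) * d / κ * (1 + ε) + (W₀ : ℝ) * e₁ * ε ≤ d * θ)
    (H : ℕ) (hH1 : (1:ℝ) ≤ H) (M : ℕ)
    (hMR : (M : ℝ) ≤ ((2 ^ (4 * g) * (CD * (H * W) ^ D)) ^ d) ^ (1 / κ)) :
    c₀ * (M : ℝ) ^ (1 + ε) * (q₁ * (((H ^ W₀ : ℕ) : ℝ)) ^ e₁) ^ ε ≤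
      (c₀ * (((2 ^ (4 * g) * (CD * W ^ D)) ^ d) ^ (1 / κ)) ^ (1 + ε) * q₁ ^ ε) *
        (H:ℝ) ^ ((d:ℝ) * θ) := by
  have hH0 : (0:ℝ) < H := by linarith
  have hW0 : (0:ℝ) < W := by linarith
  have hCD0 : (0:ℝ) < CD := by linarith
  have hq₁0 : (0:ℝ) < q₁ := by linarith
  set θ₀ : ℝ := (D : ℝ) * d / κ with hθ₀
  set R₀ : ℝ := ((2 ^ (4 * g) * (CD * W ^ D)) ^ d) ^ (1 / κ) with hR₀
  set Rr : ℝ := ((2 ^ (4 * g) * (CD * (H * W) ^ D)) ^ d) ^ (1 / κ) with hRr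
  have hR₀pos : 0 ≤ R₀ := by positivity
  have e1 : (M : ℝ) ^ (1 + ε) ≤ Rr ^ (1 + ε) :=
    Real.rpow_le_rpow (Nat.cast_nonneg _) hMR (by positivity)
  have e2 : Rr = R₀ * (H : ℝ) ^ θ₀ := by
    rw [hRr, hR₀]
    rw [show (2 ^ (4 * g) * (CD * ((H:ℝ) * W) ^ D)) =
      (2 ^ (4 * g) * (CD * W ^ D)) * (H:ℝ) ^ D by
        rw [mul_pow]; ring,
      mul_pow, Real.mul_rpow (by positivity) (by positivity)]
    congr 1
    rw [← pow_mul, ← Real.rpow_natCast, ← Real.rpow_mul hH0.le]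
    congr 1
    rw [hθ₀]
    push_cast
    ring
  have e3 : (q₁ * (((H ^ W₀ : ℕ) : ℝ)) ^ e₁) ^ ε = q₁ ^ ε * (H : ℝ) ^ ((W₀ : ℝ) * e₁ * ε) := by
    rw [Real.mul_rpow hq₁0.le (by positivity)]
    push_cast
    rw [← pow_mul, ← Real.rpow_natCast, ← Real.rpow_mul hH0.le]
    push_cast
    rfl
  have e4 : Rr ^ (1 + ε) = R₀ ^ (1 + ε) * (H : ℝ) ^ (θ₀ * (1 + ε)) := by
    rw [e2, Real.mul_rpow hR₀pos (by positivity), ← Real.rpow_mul hH0.le]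
  calc c₀ * (M : ℝ) ^ (1 + ε) * (q₁ * (((H ^ W₀ : ℕ) : ℝ)) ^ e₁) ^ ε
      ≤ c₀ * Rr ^ (1 + ε) * (q₁ * (((H ^ W₀ : ℕ) : ℝ)) ^ e₁) ^ ε := by gcongr
    _ = (c₀ * R₀ ^ (1 + ε) * q₁ ^ ε) *
        ((H : ℝ) ^ (θ₀ * (1 + ε)) * (H : ℝ) ^ ((W₀ : ℝ) * e₁ * ε)) := by
        rw [e3, e4]; ring
    _ = (c₀ * R₀ ^ (1 + ε) * q₁ ^ ε) * (H : ℝ) ^ (θ₀ * (1 + ε) + (W₀ : ℝ) * e₁ * ε) := by
        rw [← Real.rpow_add hH0]
    _ ≤ (c₀ * R₀ ^ (1 + ε) * q₁ ^ ε) * (H : ℝ) ^ ((d:ℝ) * θ) := by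
        gcongr

/-- choice of the small exponent -/
theorem epsW (d θ₀ θ w : ℝ) (h0 : 0 ≤ θ₀) (hw : 0 ≤ w) (h : θ₀ < d * θ) :
    ∃ ε : ℝ, 0 < ε ∧ θ₀ * (1 + ε) + w * ε ≤ d * θ := by
  refine ⟨(d * θ - θ₀) / (θ₀ + w + 1), div_pos (by linarith) (by linarith), ?_⟩
  have h1 : (θ₀ + w) * ((d * θ - θ₀) / (θ₀ + w + 1)) ≤ d * θ - θ₀ := by
    rw [mul_div_assoc', div_le_iff₀ (by linarith)]
    nlinarith
  nlinarith

/-- conductor bound for the exceptional members -/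
theorem exceptW (D M κ Q : ℝ) (hκ0 : 0 < κ) (hM0 : 0 ≤ M) (hnot : M ^ κ < D)
    (hD : D ≤ Q) : M ≤ Q ^ (1 / κ) := by
  have h8 : M ^ κ ≤ Q := by linarith
  calc M = (M ^ κ) ^ (1 / κ) := by
        rw [← Real.rpow_mul hM0, mul_one_div_cancel hκ0.ne', Real.rpow_one]
    _ ≤ Q ^ (1 / κ) := Real.rpow_le_rpow (by positivity) h8 (by positivity)

/-- families which are not potentially good -/
theorem family_caseB (ω : Module.Basis ι ℤ (𝓞 K)) {r : ℕ} (g : ℕ) (hg : 1 ≤ g) (cr : CRData g)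
    (F : (MvPolynomial (Fin (r + 1)) (𝓞 K))[X]) (hFd : F.natDegree ≤ 2 * g + 1 + 1)
    (hFn : F.coeff (2 * g + 1 + 1) ≠ 0) (hR : RR (2 * g + 2) F ≠ 0)
    (wt : Fin (r + 1) → ℕ) (m : ℕ) (hm : 0 < m) (hwt : ∀ i, m ≤ wt i)
    (D : ℕ) (hDw : ∀ s ∈ (RR (2 * g + 2) F).support, ∑ j, wt j * s j ≤ D) (κ θ : ℝ)
    (hκ0 : 0 < κ) (hθpos : 0 < θ) (hθ : D / κ < θ)
    (k : ℕ) (i : Fin (r + 1)) (P R S₁ U V : MvPolynomial (Fin (r + 1)) (𝓞 K))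
    (E₀ : MvPolynomial (Fin r) (𝓞 K)) (hE₀ : E₀ ≠ 0)
    (h1 : P * R * evT F (cr.T k) = evT F (cr.T cr.top) * S₁)
    (h2 : U * P + V * S₁ = (Phi (𝓞 K) r i).symm (C E₀))
    (hdeg : 0 < (Phi (𝓞 K) r i P).natDegree) :
    ∃ c : ℝ, 1 ≤ c ∧ ∀ H : ℕ, 1 ≤ H → ∀ S : Finset (Fin (r + 1) → ι → ℤ),
      (∀ a ∈ S, (∀ i j, |a i j| ≤ ((H ^ wt i : ℕ) : ℤ)) ∧ ¬ (IsHyperelliptic g (membW ω F a) ∧
        (DeltaC g (membW ω F a) : ℝ) ≤ (MC g (membW ω F a) : ℝ) ^ κ)) →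
      (S.card : ℝ) ≤ c * (H : ℝ) ^ ((Module.finrank ℚ K : ℝ) * (((∑ i, wt i : ℕ) : ℝ) - m + θ)) := by
  classical
  set d := Module.finrank ℚ K with hd
  have hd1 : 1 ≤ d := Module.finrank_pos
  have hdR : (1:ℝ) ≤ d := by exact_mod_cast hd1
  set LF := F.coeff (2 * g + 1 + 1) with hLF
  set DF := RR (2 * g + 2) F with hDF
  set W₀ := ∑ i, wt i with hW₀
  set n₀ := d * (r + 1) with hn₀
  set E := (Phi (𝓞 K) r i).symm (C E₀) with hE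
  set Lc := (Phi (𝓞 K) r i).symm (C (Phi (𝓞 K) r i P).leadingCoeff) with hLc
  have hE0 : E ≠ 0 := by
    rw [hE, Ne, EmbeddingLike.map_eq_zero_iff, C_eq_zero]; exact hE₀
  have hP0 : P ≠ 0 := by rintro rfl; simp at hdeg
  have hLc0 : Lc ≠ 0 := by
    rw [hLc, Ne, EmbeddingLike.map_eq_zero_iff, C_eq_zero, leadingCoeff_eq_zero,
      EmbeddingLike.map_eq_zero_iff]
    exact hP0
  -- exponents
  set CD : ℝ := coefW (RR (2 * g + 2) F) with hCD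
  have hCD1 : 1 ≤ CD := one_le_coefW _
  set W := famW (K := K) ω with hW
  have hW1 : 1 ≤ W := one_le_famW _
  set e₁ := P.totalDegree + E.totalDegree with he₁
  obtain ⟨ε, hε0, hε⟩ := epsW d ((D : ℝ) * d / κ) θ ((W₀ : ℝ) * e₁) (by positivity)
    (by positivity) (by
      have h3 : (D : ℝ) * d / κ = d * (D / κ) := by ring
      rw [h3]
      exact mul_lt_mul_of_pos_left hθ (by linarith))
  obtain ⟨c₀, q₁, e₁', hc₀, hq₁, he₁', hfib⟩ : ∃ (c q₁ : ℝ) (e₁' : ℕ), 0 < c ∧ 1 ≤ q₁ ∧ e₁' = e₁ ∧ ∀ (H : ℕ), 1 ≤ H → ∀ M : ℕ, 1 ≤ M →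
    ∀ (a : Fin (r + 1) → ι → ℤ), (∀ i j, |a i j| ≤ (H : ℤ)) → ∀ T₀ : Finset (ι → ℤ),
    (∀ t ∈ T₀, (∀ j, |t j| ≤ (H : ℤ)) ∧
      MvPolynomial.eval (fun j => coordInt ω (Function.update a i t j)) (F.coeff (2 * g + 1 + 1)) ≠ 0 ∧
      MvPolynomial.eval (fun j => coordInt ω (Function.update a i t j)) (RR (2 * g + 2) F) ≠ 0 ∧
      MvPolynomial.eval (fun j => coordInt ω (Function.update a i t j)) P ≠ 0 ∧
      MvPolynomial.eval (fun j => coordInt ω (Function.update a i t j))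
        ((Phi (𝓞 K) r i).symm (C E₀)) ≠ 0 ∧
      MvPolynomial.eval (fun j => coordInt ω (Function.update a i t j))
        ((Phi (𝓞 K) r i).symm (C (Phi (𝓞 K) r i P).leadingCoeff)) ≠ 0 ∧
      MC g ((spec F (fun j => coordInt ω (Function.update a i t j))).map (algebraMap (𝓞 K) K)) ≤ M) →
    (T₀.card : ℝ) ≤ c * (M : ℝ) ^ (1 + ε) * (q₁ * (H : ℝ) ^ e₁') ^ ε := by
    obtain ⟨c, q₁, e₁', h3, h4, h5, h6⟩ := fibreB' ω g hg cr F hFd k i P R S₁ U V E₀ h1 h2 hdeg ε hε0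
    exact ⟨c, q₁, e₁', h3, h4, h5, h6⟩
  subst he₁'
  set R₀ : ℝ := ((2 ^ (4 * g) * (CD * W ^ D)) ^ d) ^ (1 / κ) with hR₀
  have hR₀pos : 0 ≤ R₀ := by positivity
  set degs : ℝ := LF.totalDegree + DF.totalDegree + P.totalDegree + E.totalDegree + Lc.totalDegree with hdegs
  have hdegs0 : 0 ≤ degs := by positivity
  set c₁ : ℝ := c₀ * R₀ ^ (1 + ε) * q₁ ^ ε with hc₁
  have hc₁0 : 0 ≤ c₁ := by positivity
  set c : ℝ := (degs + c₁) * 3 ^ n₀ + 1 with hc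
  have hc1 : 1 ≤ c := by
    rw [hc]
    have : 0 ≤ (degs + c₁) * 3 ^ n₀ := by positivity
    linarith
  refine ⟨c, hc1, ?_⟩
  intro H hH S hS
  have hH1 : (1:ℝ) ≤ H := by exact_mod_cast hH
  have hH0 : (0:ℝ) < H := by linarith
  obtain ⟨Bx, hBx, hBxN, hBxP⟩ := boxW_facts ω wt m hwt H hH
  have hwt1 : ∀ i, 1 ≤ wt i := fun i => (Nat.succ_le_of_lt hm).trans (hwt i)
  have hwtW : ∀ i, wt i ≤ W₀ := fun i => Finset.single_le_sum (f := wt) (fun _ _ => Nat.zero_le _) (Finset.mem_univ i)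
  set H' : ℕ := H ^ W₀ with hH'
  have hH'1 : 1 ≤ H' := Nat.one_le_pow _ _ hH
  have hHH' : ∀ i, ((H ^ wt i : ℕ) : ℤ) ≤ (H' : ℤ) := by
    intro i
    have : H ^ wt i ≤ H' := Nat.pow_le_pow_right hH (hwtW i)
    exact_mod_cast this
  have hSub : ∀ S' ⊆ S, S' ⊆ Fintype.piFinset Bx := by
    intro S' hS' a ha
    rw [Fintype.mem_piFinset]
    intro i
    rw [hBx]
    exact (hS a (hS' ha)).1 i
  have hB1 : (1:ℝ) ≤ H * W := by nlinarith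
  set QD : ℝ := CD * (H * W) ^ D with hQD
  have hQD1 : 1 ≤ QD := by
    have h3 : (1:ℝ) ≤ (H * W) ^ D := one_le_pow₀ hB1
    nlinarith
  set Rr : ℝ := ((2 ^ (4 * g) * QD) ^ d) ^ (1 / κ) with hRr
  have hD1 : (1:ℝ) ≤ (2 ^ (4 * g) * QD) ^ d := by
    apply one_le_pow₀
    have : (1:ℝ) ≤ 2 ^ (4 * g) := one_le_pow₀ (by norm_num)
    nlinarith
  have hRr1 : 1 ≤ Rr := Real.one_le_rpow hD1 (by positivity)
  set M : ℕ := ⌊Rr⌋₊ with hM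
  have hM1 : 1 ≤ M := Nat.le_floor (by exact_mod_cast hRr1)
  have hMR : (M : ℝ) ≤ Rr := Nat.floor_le (by linarith)
  set ev : MvPolynomial (Fin (r + 1)) (𝓞 K) → (Fin (r + 1) → ι → ℤ) → 𝓞 K := fun G a =>
    MvPolynomial.eval (fun j => coordInt (K := K) ω (a j)) G with hev
  set S0 := S.filter (fun a => ev LF a = 0) with hS0
  set S1 := S.filter (fun a => ev DF a = 0) with hS1
  set S2 := S.filter (fun a => ev P a = 0) with hS2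
  set S3 := S.filter (fun a => ev E a = 0) with hS3
  set S4 := S.filter (fun a => ev Lc a = 0) with hS4
  set S5 := S.filter (fun a => ev LF a ≠ 0 ∧ ev DF a ≠ 0 ∧ ev P a ≠ 0 ∧ ev E a ≠ 0 ∧ ev Lc a ≠ 0 ∧
    MC g (membW ω F a) ≤ M) with hS5
  have hcov : S ⊆ S0 ∪ (S1 ∪ (S2 ∪ (S3 ∪ (S4 ∪ S5)))) := by
    intro a ha
    simp only [Finset.mem_union, hS0, hS1, hS2, hS3, hS4, hS5, Finset.mem_filter, ha, true_and]
    by_cases h3 : ev LF a = 0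
    · exact Or.inl h3
    by_cases h4 : ev DF a = 0
    · exact Or.inr (Or.inl h4)
    by_cases h5 : ev P a = 0
    · exact Or.inr (Or.inr (Or.inl h5))
    by_cases h6 : ev E a = 0
    · exact Or.inr (Or.inr (Or.inr (Or.inl h6)))
    by_cases h7 : ev Lc a = 0
    · exact Or.inr (Or.inr (Or.inr (Or.inr (Or.inl h7))))
    right; right; right; right; right
    refine ⟨h3, h4, h5, h6, h7, ?_⟩
    obtain ⟨ha1, ha2⟩ := hS a ha
    obtain ⟨hyp, _⟩ := spec_hyper g F hFd (fun j => coordInt ω (a j)) h3 h4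
    have hnot : ¬ ((DeltaC g (membW ω F a) : ℝ) ≤ (MC g (membW ω F a) : ℝ) ^ κ) := fun h => ha2 ⟨hyp, h⟩
    rw [not_le] at hnot
    have hpl : ∀ j, ∀ w : InfinitePlace K, w ((coordInt ω (a j) : 𝓞 K) : K) ≤ (H * W) ^ wt j := by
      intro j w
      have h8 := coordInt_place (K := K) ω (a j) (H ^ wt j) (ha1 j) w
      refine h8.trans ?_
      push_cast
      rw [mul_pow]
      have h9 : W ≤ W ^ wt j := le_self_pow₀ hW1 (by have := hwt1 j; omega)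
      gcongr
    have hRR0 : RR (2 * g + 2) (spec F (fun j => coordInt ω (a j))) ≠ 0 := by
      rw [spec_RR]; exact h4
    have hΔ := DeltaC_place_le g hg (spec F (fun j => coordInt ω (a j))) hyp hRR0 QD
      (fun w => by
        rw [spec_RR]
        exact place_evalW wt (RR (2 * g + 2) F) D hDw (H * W) hB1 _ hpl w)
    apply Nat.le_floor
    exact exceptW _ _ κ _ hκ0 (Nat.cast_nonneg _) hnot hΔ
  have hNpos : 0 < (H ^ m) ^ d := by positivity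
  have z0 := zero_countW ω r Bx _ hNpos hBxN LF hFn S0 (hSub _ (Finset.filter_subset _ _))
    (fun a ha => (Finset.mem_filter.1 ha).2)
  have z1 := zero_countW ω r Bx _ hNpos hBxN DF hR S1 (hSub _ (Finset.filter_subset _ _))
    (fun a ha => (Finset.mem_filter.1 ha).2)
  have z2 := zero_countW ω r Bx _ hNpos hBxN P hP0 S2 (hSub _ (Finset.filter_subset _ _))
    (fun a ha => (Finset.mem_filter.1 ha).2)
  have z3 := zero_countW ω r Bx _ hNpos hBxN E hE0 S3 (hSub _ (Finset.filter_subset _ _))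
    (fun a ha => (Finset.mem_filter.1 ha).2)
  have z4 := zero_countW ω r Bx _ hNpos hBxN Lc hLc0 S4 (hSub _ (Finset.filter_subset _ _))
    (fun a ha => (Finset.mem_filter.1 ha).2)
  set PB : ℝ := ∏ i, ((Bx i).card : ℝ) with hPB
  have hPB0 : 0 ≤ PB := Finset.prod_nonneg fun i _ => Nat.cast_nonneg _
  have z5 : (S5.card : ℝ) * (Bx i).card ≤ (c₀ * (M : ℝ) ^ (1 + ε) * (q₁ * (H' : ℝ) ^ e₁) ^ ε) * PB := by
    apply coord_countW Bx i S5 (hSub _ (Finset.filter_subset _ _)) _ (by positivity)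
    intro a ha
    apply hfib H' hH'1 M hM1 a (fun j j' =>
      ((hBx j _).1 (Fintype.mem_piFinset.1 ha j) j').trans (hHH' j))
    intro t ht
    rw [Finset.mem_filter] at ht
    obtain ⟨ht1, ht2⟩ := ht
    rw [hS5, Finset.mem_filter] at ht2
    obtain ⟨_, h3, h4, h5, h6, h7, h8⟩ := ht2
    exact ⟨fun j' => ((hBx i _).1 ht1 j').trans (hHH' i), h3, h4, h5, h6, h7, h8⟩
  have hsz := sizeW d g D W₀ e₁ c₀ q₁ CD W κ θ ε hc₀ hq₁ hCD1 hW1 hκ0 hε0 hε H hH1 M hMR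
  have hcard : (S.card : ℝ) ≤ S0.card + (S1.card + (S2.card + (S3.card + (S4.card + S5.card)))) := by
    have h3 : S.card ≤ S0.card + (S1.card + (S2.card + (S3.card + (S4.card + S5.card)))) := by
      refine (Finset.card_le_card hcov).trans ?_
      refine (Finset.card_union_le _ _).trans (Nat.add_le_add_left ?_ _)
      refine (Finset.card_union_le _ _).trans (Nat.add_le_add_left ?_ _)
      refine (Finset.card_union_le _ _).trans (Nat.add_le_add_left ?_ _)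
      refine (Finset.card_union_le _ _).trans (Nat.add_le_add_left ?_ _)
      exact Finset.card_union_le _ _
    exact_mod_cast h3
  rw [Nat.cast_pow, Nat.cast_pow] at z0 z1 z2 z3 z4
  have hNB : ((H : ℝ) ^ m) ^ d ≤ ((Bx i).card : ℝ) := by
    have := hBxN i
    exact_mod_cast this
  have z5' : (S5.card : ℝ) * ((H : ℝ) ^ m) ^ d ≤ (c₁ * (H:ℝ) ^ ((d:ℝ) * θ)) * PB :=
    (mul_le_mul_of_nonneg_left hNB (Nat.cast_nonneg _)).trans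
      (z5.trans (mul_le_mul_of_nonneg_right hsz hPB0))
  exact finishW'' d m W₀ n₀ H _ _ _ _ _ c₁ θ _ _ _ _ _ _ _ PB c hH1 (Nat.cast_nonneg _)
    (Nat.cast_nonneg _) (Nat.cast_nonneg _) (Nat.cast_nonneg _) (Nat.cast_nonneg _) hc₁0 hθpos.le
    hBxP hPB0 hcard z0 z1 z2 z3 z4 z5' (by rw [hc, hdegs]; linarith)

end

end Pool.Agent.Lib.MP_ca2859_nt
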