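import Mathlib
import Pool.Agent.Lib.MP_ca2859_nt.PF.Main
import Pool.Agent.Lib.MP_ca2859_nt.Mobius
import Pool.Agent.Lib.MP_ca2859_nt.Member

/-!
# Families in weighted boxes: general statement
-/

open NumberField Polynomial IsDedekindDomain WithZero

set_option linter.unusedSectionVars false

namespace Pool.Agent.Lib.MP_ca2859_nt

section
variable {K : Type} [Field K] [NumberField K] {ι : Type} [Fintype ι]

/-- transform of a family -/
noncomputable def flipW {r : ℕ} (g : ℕ) (F : (MvPolynomial (Fin r) (𝓞 K))[X]) (a : ℕ) :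
    (MvPolynomial (Fin r) (𝓞 K))[X] :=
  reflect (2 * g + 2) (taylor (a : MvPolynomial (Fin r) (𝓞 K)) F)

theorem exists_good_natW {R : Type*} [CommRing R] [IsDomain R] [CharZero R] (F : R[X]) (hF : F ≠ 0) :
    ∃ a : ℕ, F.eval (a : R) ≠ 0 := by
  by_contra hcon
  push Not at hcon
  apply hF
  apply eq_zero_of_infinite_isRoot
  refine (Set.infinite_range_of_injective (Nat.cast_injective (R := R))).mono ?_
  rintro _ ⟨a, rfl⟩
  exact hcon a

theorem flipW_spec {r : ℕ} (g : ℕ) (F : (MvPolynomial (Fin r) (𝓞 K))[X]) (a : ℕ) (t : Fin r → 𝓞 K) :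
    (spec (flipW g F a) t).map (algebraMap (𝓞 K) K) =
      flip g (a : K) ((spec F t).map (algebraMap (𝓞 K) K)) := by
  rw [spec, flipW, spec, flip, Polynomial.map_map, Polynomial.map_map]
  set φ := (algebraMap (𝓞 K) K).comp (MvPolynomial.eval t) with hφ
  ext i
  rw [coeff_map, coeff_reflect, coeff_reflect, ← coeff_map, taylor_apply, taylor_apply,
    Polynomial.map_comp]
  simp

theorem suppW_mono {r : ℕ} (wt : Fin r → ℕ) (e : ℕ) (n : ℕ) (p : MvPolynomial (Fin r) (𝓞 K))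
    (hp : ∀ s ∈ p.support, ∑ j, wt j * s j ≤ e) :
    ∀ s ∈ ((n : MvPolynomial (Fin r) (𝓞 K)) * p).support, ∑ j, wt j * s j ≤ e := by
  intro s hs
  apply hp
  rw [MvPolynomial.mem_support_iff] at hs ⊢
  intro h0
  apply hs
  rw [← nsmul_eq_mul, MvPolynomial.coeff_smul, h0, smul_zero]

theorem suppW_sum {r : ℕ} {α : Type*} (wt : Fin r → ℕ) (e : ℕ) (I : Finset α)
    (p : α → MvPolynomial (Fin r) (𝓞 K))
    (hp : ∀ j ∈ I, ∀ s ∈ (p j).support, ∑ j, wt j * s j ≤ e) :
    ∀ s ∈ (∑ j ∈ I, p j).support, ∑ j, wt j * s j ≤ e := by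
  classical
  intro s hs
  have h1 := MvPolynomial.support_sum hs
  rw [Finset.mem_biUnion] at h1
  obtain ⟨j, hj, hs'⟩ := h1
  exact hp j hj s hs'

theorem suppW_flip {r : ℕ} (g : ℕ) (F : (MvPolynomial (Fin r) (𝓞 K))[X]) (a : ℕ) (wt : Fin r → ℕ) (e : ℕ)
    (he : ∀ i, ∀ s ∈ (F.coeff i).support, ∑ j, wt j * s j ≤ e) (i : ℕ) :
    ∀ s ∈ ((flipW g F a).coeff i).support, ∑ j, wt j * s j ≤ e := by
  rw [flipW, coeff_reflect, taylor_coeff, eval_eq_sum_range]
  apply suppW_sum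
  intro j _
  rw [hasseDeriv_coeff, mul_comm, ← Nat.cast_pow]
  apply suppW_mono
  apply suppW_mono
  exact he _

end

end Pool.Agent.Lib.MP_ca2859_nt
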