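import Mathlib

/-!
# Polynomial families of hyperelliptic curves
-/

open Polynomial

namespace Pool.Agent.Lib.MP_ca2859_nt

/-- The member, at the point `t`, of the family `y ^ 2 = F(x)` whose coefficients are polynomials
over `K` in `r` variables: the coefficients are evaluated at `t`. -/
noncomputable def famMember {K : Type} [Field K] {r : ℕ} (F : (MvPolynomial (Fin r) K)[X])
    (t : Fin r → K) : K[X] :=
  F.map (MvPolynomial.eval t)

/-- The discriminant of the family `y ^ 2 = F(x)` of hyperelliptic curves of genus `g`, up to the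
factor `2 ^ (4 g)`: the discriminant of `F` if `F` has degree `2 g + 2` in `x`, and its product by
the square of the leading coefficient otherwise. It is a polynomial over `K` in `r` variables. -/
noncomputable def famDisc {K : Type} [Field K] {r : ℕ} (g : ℕ) (F : (MvPolynomial (Fin r) K)[X]) :
    MvPolynomial (Fin r) K :=
  if F.natDegree = 2 * g + 2 then F.discr else F.leadingCoeff ^ 2 * F.discr

/-- The cross ratio of the four points `(x i : z i)` of the projective line. -/
def crossRatio {Ω : Type} [Field Ω] (x z : Fin 4 → Ω) : Ω :=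
  ((x 0 * z 1 - x 1 * z 0) * (x 2 * z 3 - x 3 * z 2)) /
    ((x 0 * z 2 - x 2 * z 0) * (x 1 * z 3 - x 3 * z 1))

/-- The family `y ^ 2 = F(x)` of curves of genus `g` is potentially good: the cross ratio of any
four distinct points `(x i : z i)` of the projective line, over any field `Ω` containing
`K[t_1, …, t_r]`, which are zeros of the binary form `∑ F_j x ^ j z ^ (2 g + 2 - j)`, is integral
over `K[t_1, …, t_r]`. -/
def PotGood {K : Type} [Field K] {r : ℕ} (g : ℕ) (F : (MvPolynomial (Fin r) K)[X]) : Prop :=
  ∀ (Ω : Type) [Field Ω] (φ : MvPolynomial (Fin r) K →+* Ω), Function.Injective φ →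
    ∀ x z : Fin 4 → Ω,
      (∀ i, ∑ j ∈ Finset.range (2 * g + 3), φ (F.coeff j) * x i ^ j * z i ^ (2 * g + 2 - j) = 0) →
      (∀ i j, i ≠ j → x i * z j - x j * z i ≠ 0) →
      φ.IsIntegralElem (crossRatio x z)

end Pool.Agent.Lib.MP_ca2859_nt
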