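import Mathlib
import Pool.Agent.Lib.MP_ca2859_nt.Mobius
import Pool.Agent.Lib.MP_ca2859_nt.Elim
import Pool.Agent.Lib.MP_ca2859_nt.FamA
import Pool.Agent.Lib.MP_ca2859_nt.PF.Defs

/-!
# Scaling by squares and clearing denominators
-/

open Polynomial WithZero IsDedekindDomain NumberField

set_option linter.unusedSectionVars false

namespace Pool.Agent.Lib.MP_ca2859_nt

section
variable {F : Type*} [Field F]

theorem sameCurve_scale (g : ℕ) (f : F[X]) (b : F) (hb : b ≠ 0) :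
    SameCurve g f (C (b ^ 2) * f) := by
  refine ⟨1, 0, 0, 1, b, by simp, hb, ?_⟩
  intro x _
  rw [eval_mul, eval_C]
  simp

theorem sameCurve_scale' (g : ℕ) (f : F[X]) (b : F) (hb : b ≠ 0) :
    SameCurve g (C (b ^ 2) * f) f := by
  refine ⟨1, 0, 0, 1, b⁻¹, by simp, inv_ne_zero hb, ?_⟩
  intro x _
  rw [eval_mul, eval_C]
  have h1 : b⁻¹ ^ 2 * b ^ 2 = 1 := by rw [← mul_pow, inv_mul_cancel₀ hb, one_pow]
  simp only [one_mul, zero_mul, add_zero, zero_add, one_pow, mul_one, div_one]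
  rw [← mul_assoc, h1, one_mul]

theorem hyper_scale (g : ℕ) (f : F[X]) (b : F) (hb : b ≠ 0) :
    IsHyperelliptic g (C (b ^ 2) * f) ↔ IsHyperelliptic g f := by
  have hb2 : b ^ 2 ≠ 0 := pow_ne_zero _ hb
  have hu : IsUnit (C (b ^ 2) : F[X]) := (IsUnit.mk0 _ hb2).map C
  have hd : (C (b ^ 2) * f).natDegree = f.natDegree := natDegree_C_mul hb2
  rw [IsHyperelliptic, IsHyperelliptic, hd]
  constructor
  · rintro ⟨h1, h2⟩
    exact ⟨h1.of_mul_right, h2⟩
  · rintro ⟨h1, h2⟩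
    exact ⟨Separable.unit_mul hu h1, h2⟩

end

section
variable {K : Type} [Field K] [NumberField K]

theorem discExp_scale (g : ℕ) (f : K[X]) (hf : f.natDegree ≤ 2 * g + 2) (b : K) (hb : b ≠ 0)
    (v : HeightOneSpectrum (𝓞 K)) : discExp g (C (b ^ 2) * f) v = discExp g f v := by
  have hb2 : b ^ 2 ≠ 0 := pow_ne_zero _ hb
  have hf2 : (C (b ^ 2) * f).natDegree ≤ 2 * g + 2 := by rw [natDegree_C_mul hb2]; exact hf
  have h : ∀ P Q : K[X], IsWeierstrassModel (v.valuation K) g (C (b ^ 2) * f) P Q ↔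
      IsWeierstrassModel (v.valuation K) g f P Q := by
    intro P Q
    constructor
    · intro h
      exact ⟨h.intP, h.intQ, h.degP, h.degQ, h.deg0,
        SameCurve.trans hf (sameCurve_scale g f b hb) h.same⟩
    · intro h
      exact ⟨h.intP, h.intQ, h.degP, h.degQ, h.deg0,
        SameCurve.trans hf2 (sameCurve_scale' g f b hb) h.same⟩
  rw [discExp, discExp, minDiscExp, minDiscExp]
  congr 1
  ext k
  simp only [Set.mem_ofPred_eq]
  constructor
  · rintro ⟨P, Q, h1, h2⟩; exact ⟨P, Q, (h P Q).1 h1, h2⟩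
  · rintro ⟨P, Q, h1, h2⟩; exact ⟨P, Q, (h P Q).2 h1, h2⟩

theorem DeltaC_scale (g : ℕ) (f : K[X]) (hf : f.natDegree ≤ 2 * g + 2) (b : K) (hb : b ≠ 0) :
    DeltaC g (C (b ^ 2) * f) = DeltaC g f := by
  rw [DeltaC, DeltaC]
  simp only [discExp_scale g f hf b hb]

theorem MC_scale (g : ℕ) (f : K[X]) (hf : f.natDegree ≤ 2 * g + 2) (b : K) (hb : b ≠ 0) :
    MC g (C (b ^ 2) * f) = MC g f := by
  rw [MC, MC]
  simp only [discExp_scale g f hf b hb]

/-- the embedding of `𝓞 K [t]` in `K[t]` -/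
noncomputable def PhiK (K : Type) [Field K] [NumberField K] (r : ℕ) :
    MvPolynomial (Fin r) (𝓞 K) →+* MvPolynomial (Fin r) K :=
  MvPolynomial.map (algebraMap (𝓞 K) K)

theorem PhiK_inj (r : ℕ) : Function.Injective (PhiK K r) :=
  MvPolynomial.map_injective _ (FaithfulSMul.algebraMap_injective _ _)

theorem clear_family {r : ℕ} (F : (MvPolynomial (Fin r) K)[X]) : ∃ (N : ℕ)
    (G : (MvPolynomial (Fin r) (𝓞 K))[X]), 0 < N ∧
    G.map (PhiK K r) = C (N : MvPolynomial (Fin r) K) * F := by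
  induction F using Polynomial.induction_on' with
  | add p q hp hq =>
    obtain ⟨N₁, G₁, h1, h2⟩ := hp
    obtain ⟨N₂, G₂, h3, h4⟩ := hq
    refine ⟨N₁ * N₂, C ((N₂ : ℕ) : MvPolynomial (Fin r) (𝓞 K)) * G₁ +
      C ((N₁ : ℕ) : MvPolynomial (Fin r) (𝓞 K)) * G₂, Nat.mul_pos h1 h3, ?_⟩
    rw [Polynomial.map_add, Polynomial.map_mul, Polynomial.map_mul, h2, h4, map_C, map_C,
      map_natCast (PhiK K r), map_natCast (PhiK K r), Nat.cast_mul, C_mul]
    ring
  | monomial n a =>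
    obtain ⟨m, hm, a₀, h⟩ := clear_poly a
    refine ⟨m, monomial n a₀, hm, ?_⟩
    rw [map_monomial, PhiK, h, C_mul_monomial]

theorem clear_family_sq {r : ℕ} (F : (MvPolynomial (Fin r) K)[X]) : ∃ (N : ℕ)
    (G : (MvPolynomial (Fin r) (𝓞 K))[X]), 0 < N ∧
    G.map (PhiK K r) = C ((N : MvPolynomial (Fin r) K) ^ 2) * F := by
  obtain ⟨N, G, h1, h2⟩ := clear_family F
  refine ⟨N, C ((N : ℕ) : MvPolynomial (Fin r) (𝓞 K)) * G, h1, ?_⟩
  rw [Polynomial.map_mul, h2, map_C, map_natCast (PhiK K r), sq, C_mul]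
  ring

theorem clear_member {r : ℕ} (F : (MvPolynomial (Fin r) K)[X]) (N : ℕ)
    (G : (MvPolynomial (Fin r) (𝓞 K))[X])
    (hG : G.map (PhiK K r) = C ((N : MvPolynomial (Fin r) K) ^ 2) * F) (t : Fin r → 𝓞 K) :
    (spec G t).map (algebraMap (𝓞 K) K) = C ((N : K) ^ 2) * famMember F (fun i => (t i : K)) := by
  have h1 : (algebraMap (𝓞 K) K).comp (MvPolynomial.eval t) =
      (MvPolynomial.eval (fun i => (t i : K))).comp (PhiK K r) := by
    apply MvPolynomial.ringHom_ext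
    · intro c
      simp [PhiK]
    · intro i
      simp [PhiK]
  rw [spec, Polynomial.map_map, h1, ← Polynomial.map_map, hG, Polynomial.map_mul, map_C, map_pow,
    map_natCast]
  rfl

theorem clear_natDegree {r : ℕ} (F : (MvPolynomial (Fin r) K)[X]) (N : ℕ) (hN : 0 < N)
    (G : (MvPolynomial (Fin r) (𝓞 K))[X])
    (hG : G.map (PhiK K r) = C ((N : MvPolynomial (Fin r) K) ^ 2) * F) :
    G.natDegree = F.natDegree := by
  rw [← natDegree_map_eq_of_injective (PhiK_inj r) G, hG, natDegree_C_mul]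
  exact pow_ne_zero _ (by exact_mod_cast hN.ne')

theorem clear_coeff {r : ℕ} (F : (MvPolynomial (Fin r) K)[X]) (N : ℕ)
    (G : (MvPolynomial (Fin r) (𝓞 K))[X])
    (hG : G.map (PhiK K r) = C ((N : MvPolynomial (Fin r) K) ^ 2) * F) (i : ℕ) :
    PhiK K r (G.coeff i) = (N : MvPolynomial (Fin r) K) ^ 2 * F.coeff i := by
  rw [← coeff_map, hG, coeff_C_mul]

theorem clear_support {r : ℕ} (F : (MvPolynomial (Fin r) K)[X]) (N : ℕ)
    (G : (MvPolynomial (Fin r) (𝓞 K))[X])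
    (hG : G.map (PhiK K r) = C ((N : MvPolynomial (Fin r) K) ^ 2) * F) (i : ℕ) :
    (G.coeff i).support ⊆ (F.coeff i).support := by
  intro s hs
  rw [MvPolynomial.mem_support_iff] at hs ⊢
  intro h0
  apply hs
  have h1 := congrArg (MvPolynomial.coeff s) (clear_coeff F N G hG i)
  rw [PhiK, MvPolynomial.coeff_map] at h1
  have h2 : ((N : MvPolynomial (Fin r) K) ^ 2 * F.coeff i) =
      MvPolynomial.C ((N : K) ^ 2) * F.coeff i := by
    rw [map_pow, map_natCast]
  rw [h2, MvPolynomial.coeff_C_mul, h0, mul_zero] at h1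
  exact (FaithfulSMul.algebraMap_eq_zero_iff (𝓞 K) K).1 h1

theorem clear_RR {r : ℕ} (g : ℕ) (hg : 1 ≤ g) (F : (MvPolynomial (Fin r) K)[X])
    (hF : IsHyperelliptic g (F.map (algebraMap (MvPolynomial (Fin r) K)
      (FractionRing (MvPolynomial (Fin r) K))))) (N : ℕ) (hN : 0 < N)
    (G : (MvPolynomial (Fin r) (𝓞 K))[X])
    (hG : G.map (PhiK K r) = C ((N : MvPolynomial (Fin r) K) ^ 2) * F) : RR (2 * g + 2) G ≠ 0 := by
  set L := FractionRing (MvPolynomial (Fin r) K) with hL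
  have hinj : Function.Injective (algebraMap (MvPolynomial (Fin r) K) L) := IsFractionRing.injective _ _
  have hchar : CharZero L := charZero_of_injective_algebraMap hinj
  have hN0 : (N : L) ≠ 0 := by exact_mod_cast hN.ne'
  have h1 := (hyper_scale g (F.map (algebraMap (MvPolynomial (Fin r) K) L)) (N : L) hN0).2 hF
  have h2 : C ((N : L) ^ 2) * F.map (algebraMap (MvPolynomial (Fin r) K) L) =
      (G.map (PhiK K r)).map (algebraMap (MvPolynomial (Fin r) K) L) := by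
    rw [hG, Polynomial.map_mul, map_C, map_pow (algebraMap (MvPolynomial (Fin r) K) L),
      map_natCast (algebraMap (MvPolynomial (Fin r) K) L)]
  rw [h2] at h1
  have h3 := RR_ne_zero_of_hyper g hg _ h1
  rw [RR_map, RR_map] at h3
  intro h0
  rw [h0, map_zero, map_zero] at h3
  exact h3 rfl

end

end Pool.Agent.Lib.MP_ca2859_nt
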