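import Mathlib
import Pool.Agent.Lib.MP_ca2859_nt.PF.Fin
import Pool.Agent.Lib.MP_ca2859_nt.PF.Red

/-!
# Families: all members in the potentially good case, almost all members otherwise
-/

open NumberField Polynomial IsDedekindDomain WithZero

set_option linter.unusedSectionVars false

namespace Pool.Agent.Lib.MP_ca2859_nt

section
variable {K : Type} [Field K] [NumberField K] {ι : Type} [Fintype ι]

/-- the first case of the dichotomy -/
def CaseData {r : ℕ} {g : ℕ} (cr : CRData g) (G : (MvPolynomial (Fin r) (𝓞 K))[X]) : Prop :=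
  ∃ m : ℕ, 0 < m ∧ ∀ k ≤ cr.top, ∃ s,
      (m : MvPolynomial (Fin r) (𝓞 K)) * evT G (cr.T k) = evT G (cr.T cr.top) * s

theorem RR_flip_ne {F : Type*} [Field F] (g : ℕ) (a : F) (f : F[X]) (hf : f.natDegree ≤ 2 * g + 2)
    (h : RR (2 * g + 2) f ≠ 0) : RR (2 * g + 2) (flip g a f) ≠ 0 := by
  obtain ⟨ε, hε⟩ := RR_reflect (2 * g + 2) (by omega) (taylor a f)
    (by rw [natDegree_taylor]; exact hf)
  rw [flip, hε, RR_taylor _ (by omega) _ _ hf]
  exact mul_ne_zero (unit_ne_zero ε) h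

theorem flipW_natDegree {r : ℕ} (g : ℕ) (G : (MvPolynomial (Fin r) (𝓞 K))[X])
    (hGd : G.natDegree ≤ 2 * g + 2) (a : ℕ) : (flipW g G a).natDegree ≤ 2 * g + 1 + 1 := by
  rw [natDegree_le_iff_coeff_eq_zero]
  intro k hk
  rw [flipW, coeff_reflect, revAt_eq_self_of_lt hk, coeff_eq_zero_of_natDegree_lt]
  rw [natDegree_taylor]; omega

theorem flipW_coeff {r : ℕ} (g : ℕ) (G : (MvPolynomial (Fin r) (𝓞 K))[X]) (a : ℕ) :
    (flipW g G a).coeff (2 * g + 1 + 1) = G.eval (a : MvPolynomial (Fin r) (𝓞 K)) := by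
  rw [flipW, coeff_reflect, revAt_le (by omega), show 2 * g + 2 - (2 * g + 1 + 1) = 0 by omega,
    taylor_coeff_zero]

theorem flipW_RR {r : ℕ} (g : ℕ) (G : (MvPolynomial (Fin r) (𝓞 K))[X])
    (hGd : G.natDegree ≤ 2 * g + 2) (hGR : RR (2 * g + 2) G ≠ 0) (a : ℕ) :
    RR (2 * g + 2) (flipW g G a) ≠ 0 := by
  set A := MvPolynomial (Fin r) (𝓞 K) with hA
  set Fr := FractionRing A with hFr
  have hinj : Function.Injective (algebraMap A Fr) := IsFractionRing.injective A Fr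
  intro h0
  have h1 : RR (2 * g + 2) ((flipW g G a).map (algebraMap A Fr)) = 0 := by rw [RR_map, h0, map_zero]
  have h2 : (flipW g G a).map (algebraMap A Fr) = flip g (a : Fr) (G.map (algebraMap A Fr)) := by
    rw [flipW, flip]
    ext i
    rw [coeff_map, coeff_reflect, coeff_reflect, ← coeff_map, taylor_apply, taylor_apply,
      Polynomial.map_comp, Polynomial.map_add, map_X, map_C, map_natCast (algebraMap A Fr)]
  rw [h2] at h1
  refine RR_flip_ne g (a : Fr) _ (natDegree_map_le.trans hGd) ?_ h1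
  rw [RR_map]
  intro h3
  exact hGR (hinj (by rw [h3, map_zero]))

theorem exists_nat_nonroot (g : ℕ) (f : K[X]) (hf : f ≠ 0) (hfd : f.natDegree ≤ 2 * g + 2) :
    ∃ a : ℕ, a < 2 * g + 3 ∧ f.eval (a : K) ≠ 0 := by
  by_contra hcon
  push Not at hcon
  apply hf
  apply Polynomial.eq_zero_of_natDegree_lt_card_of_eval_eq_zero f
    (f := fun i : Fin (2 * g + 3) => ((i : ℕ) : K))
  · intro i j hij
    exact Fin.ext (Nat.cast_injective hij)
  · intro i
    exact hcon i i.2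
  · rw [Fintype.card_fin]; omega

theorem flipW_RR_support {r : ℕ} (g : ℕ) (G : (MvPolynomial (Fin r) (𝓞 K))[X])
    (hGd : G.natDegree ≤ 2 * g + 2) (a : ℕ) :
    (RR (2 * g + 2) (flipW g G a)).support ⊆ (RR (2 * g + 2) G).support := by
  set A := MvPolynomial (Fin r) (𝓞 K) with hA
  set Fr := FractionRing A with hFr
  have hinj : Function.Injective (algebraMap A Fr) := IsFractionRing.injective A Fr
  have hd : (G.map (algebraMap A Fr)).natDegree ≤ 2 * g + 2 := natDegree_map_le.trans hGd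
  have h2 : (flipW g G a).map (algebraMap A Fr) = flip g (a : Fr) (G.map (algebraMap A Fr)) := by
    rw [flipW, flip]
    ext i
    rw [coeff_map, coeff_reflect, coeff_reflect, ← coeff_map, taylor_apply, taylor_apply,
      Polynomial.map_comp, Polynomial.map_add, map_X, map_C, map_natCast (algebraMap A Fr)]
  obtain ⟨ε, hε⟩ := RR_reflect (2 * g + 2) (by omega) (taylor (a : Fr) (G.map (algebraMap A Fr)))
    (by rw [natDegree_taylor]; exact hd)
  rw [RR_taylor _ (by omega) _ _ hd] at hε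
  have h3 : RR (2 * g + 2) (flipW g G a) = ((ε : ℤ) : A) * RR (2 * g + 2) G := by
    apply hinj
    rw [← RR_map, h2, flip, hε, RR_map, map_mul, map_intCast]
  rw [h3]
  intro s hs
  rw [MvPolynomial.mem_support_iff] at hs ⊢
  intro h0
  apply hs
  rw [← zsmul_eq_mul, MvPolynomial.coeff_smul, h0, smul_zero]

/-- all members of a potentially good family -/
theorem family_allA {r : ℕ} (g : ℕ) (hg : 1 ≤ g) (cr : CRData g)
    (G : (MvPolynomial (Fin (r + 1)) (𝓞 K))[X]) (hGd : G.natDegree ≤ 2 * g + 2)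
    (hA : ∀ a : ℕ, G.eval (a : MvPolynomial (Fin (r + 1)) (𝓞 K)) ≠ 0 → CaseData cr (flipW g G a)) :
    ∃ C₀ : ℕ, ∀ t : Fin (r + 1) → 𝓞 K, IsHyperelliptic g ((spec G t).map (algebraMap (𝓞 K) K)) →
      DeltaC g ((spec G t).map (algebraMap (𝓞 K) K)) ≤
        C₀ * MC g ((spec G t).map (algebraMap (𝓞 K) K)) ^ ((2 * g + 1) * (2 * ((g + 1) / 2 + 1))) := by
  classical
  have hm : ∀ a : ℕ, ∃ m : ℕ, 0 < m ∧ (G.eval (a : MvPolynomial (Fin (r + 1)) (𝓞 K)) ≠ 0 →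
      ∀ k ≤ cr.top, ∃ s, (m : MvPolynomial (Fin (r + 1)) (𝓞 K)) * evT (flipW g G a) (cr.T k) =
        evT (flipW g G a) (cr.T cr.top) * s) := by
    intro a
    by_cases ha : G.eval (a : MvPolynomial (Fin (r + 1)) (𝓞 K)) = 0
    · exact ⟨1, one_pos, fun h => absurd ha h⟩
    · obtain ⟨m, h1, h2⟩ := hA a ha
      exact ⟨m, h1, fun _ => h2⟩
  choose m hm0 hm1 using hm
  set cc : ℕ → ℕ := fun a =>
    ((2 ^ (4 * g) * m a ^ (4 * ((2 * g + 1) * (2 * g)))) * csF g) ^ Module.finrank ℚ K with hcc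
  refine ⟨∑ a ∈ Finset.range (2 * g + 3), cc a, ?_⟩
  intro t ht
  set f := (spec G t).map (algebraMap (𝓞 K) K) with hf
  have hfd : f.natDegree ≤ 2 * g + 2 := natDegree_map_le.trans (natDegree_map_le.trans hGd)
  have hf0 : f ≠ 0 := by
    rintro h0
    have := ht.2
    rw [h0] at this
    simp at this
  obtain ⟨a, ha, hfa⟩ := exists_nat_nonroot g f hf0 hfd
  have hfa' : f.eval (a : K) = algebraMap (𝓞 K) K (MvPolynomial.eval t
      (G.eval (a : MvPolynomial (Fin (r + 1)) (𝓞 K)))) := by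
    rw [hf, spec, eval_natCast_map, eval_natCast_map]
  have hta : MvPolynomial.eval t (G.eval (a : MvPolynomial (Fin (r + 1)) (𝓞 K))) ≠ 0 := by
    intro h0
    rw [hfa', h0, map_zero] at hfa
    exact hfa rfl
  have hGa : G.eval (a : MvPolynomial (Fin (r + 1)) (𝓞 K)) ≠ 0 := by
    intro h0
    rw [h0, map_zero] at hta
    exact hta rfl
  have hsp : (spec (flipW g G a) t).map (algebraMap (𝓞 K) K) = flip g (a : K) f := flipW_spec g G a t
  have hRR : RR (2 * g + 2) f ≠ 0 := RR_ne_zero_of_hyper g hg f ht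
  have hl : MvPolynomial.eval t ((flipW g G a).coeff (2 * g + 1 + 1)) ≠ 0 := by
    rw [flipW_coeff]; exact hta
  have hD : MvPolynomial.eval t (RR (2 * g + 2) (flipW g G a)) ≠ 0 := by
    rw [← spec_RR]
    intro h0
    have h1 := RR_map (algebraMap (𝓞 K) K) (2 * g + 2) (spec (flipW g G a) t)
    rw [h0, map_zero, hsp] at h1
    exact RR_flip_ne g (a : K) f hfd hRR h1
  obtain ⟨_, h2⟩ := boundAS g hg cr (flipW g G a) (flipW_natDegree g G hGd a) (m a) (hm0 a)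
    (hm1 a hGa) t hl hD
  rw [hsp, DeltaC_flip g _ _ hfd, MC_flip g _ _ hfd] at h2
  refine h2.trans (Nat.mul_le_mul_right _ ?_)
  exact Finset.single_le_sum (f := cc) (fun _ _ => Nat.zero_le _) (Finset.mem_range.2 ha)

/-- almost all members of the other families -/
theorem family_allB (ω : Module.Basis ι ℤ (𝓞 K)) {r : ℕ} (g : ℕ) (hg : 1 ≤ g) (cr : CRData g)
    (G : (MvPolynomial (Fin (r + 1)) (𝓞 K))[X]) (hGd : G.natDegree ≤ 2 * g + 2)
    (hGR : RR (2 * g + 2) G ≠ 0) (a₀ : ℕ)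
    (ha₀ : G.eval (a₀ : MvPolynomial (Fin (r + 1)) (𝓞 K)) ≠ 0)
    (hnA : ¬ CaseData cr (flipW g G a₀))
    (wt : Fin (r + 1) → ℕ) (m : ℕ) (hm : 0 < m) (hwt : ∀ i, m ≤ wt i)
    (D : ℕ) (hDw : ∀ s ∈ (RR (2 * g + 2) G).support, ∑ j, wt j * s j ≤ D) (κ θ : ℝ)
    (hκ0 : 0 < κ) (hθ : D / κ < θ) :
    ∃ c : ℝ, 1 ≤ c ∧ ∀ H : ℕ, 1 ≤ H → ∀ S : Finset (Fin (r + 1) → ι → ℤ),
      (∀ a ∈ S, (∀ i j, |a i j| ≤ ((H ^ wt i : ℕ) : ℤ)) ∧ ¬ (IsHyperelliptic g (membW ω G a) ∧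
        (DeltaC g (membW ω G a) : ℝ) ≤ (MC g (membW ω G a) : ℝ) ^ κ)) →
      (S.card : ℝ) ≤ c * (H : ℝ) ^ ((Module.finrank ℚ K : ℝ) * (((∑ i, wt i : ℕ) : ℝ) - m + θ)) := by
  have hθpos : 0 < θ := lt_of_le_of_lt (by positivity) hθ
  set G' := flipW g G a₀ with hG'
  have hG'd : G'.natDegree ≤ 2 * g + 1 + 1 := flipW_natDegree g G hGd a₀
  have hG'n : G'.coeff (2 * g + 1 + 1) ≠ 0 := by rw [hG', flipW_coeff]; exact ha₀
  have hG'R : RR (2 * g + 2) G' ≠ 0 := flipW_RR g G hGd hGR a₀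
  have hq := q_ne_zero g cr G' hG'd hG'n hG'R
  have hmain : ∃ c : ℝ, 1 ≤ c ∧ ∀ H : ℕ, 1 ≤ H → ∀ S : Finset (Fin (r + 1) → ι → ℤ),
      (∀ a ∈ S, (∀ i j, |a i j| ≤ ((H ^ wt i : ℕ) : ℤ)) ∧ ¬ (IsHyperelliptic g (membW ω G' a) ∧
        (DeltaC g (membW ω G' a) : ℝ) ≤ (MC g (membW ω G' a) : ℝ) ^ κ)) →
      (S.card : ℝ) ≤ c * (H : ℝ) ^ ((Module.finrank ℚ K : ℝ) * (((∑ i, wt i : ℕ) : ℝ) - m + θ)) := by
    rcases dichotomy r _ hq cr.top (fun k => evT G' (cr.T k)) with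
      ⟨m', hm', hA⟩ | ⟨k, i, P, R, S₁, U, V, E₀, h1, hE₀, h2, hdeg⟩
    · exact absurd ⟨m', hm', hA⟩ hnA
    · exact family_caseB ω g hg cr G' hG'd hG'n hG'R wt m hm hwt D
        (fun s hs => hDw s (flipW_RR_support g G hGd a₀ hs)) κ θ hκ0 hθpos hθ k i P R S₁ U V E₀ hE₀ h1 h2 hdeg
  obtain ⟨c, hc, hmain⟩ := hmain
  refine ⟨c, hc, ?_⟩
  intro H hH S hS
  apply hmain H hH S
  intro a ha
  obtain ⟨h1, h2⟩ := hS a ha
  refine ⟨h1, ?_⟩
  rintro ⟨h3, h4⟩
  apply h2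
  have hd : (membW ω G a).natDegree ≤ 2 * g + 2 := natDegree_map_le.trans (natDegree_map_le.trans hGd)
  have hm : membW ω G' a = flip g (a₀ : K) (membW ω G a) := flipW_spec g G a₀ _
  rw [hm] at h3 h4
  rw [DeltaC_flip g _ _ hd, MC_flip g _ _ hd] at h4
  refine ⟨?_, h4⟩
  apply hyper_of_RR_all g hg _ hd
  intro h0
  have h5 := RR_ne_zero_of_hyper g hg _ h3
  obtain ⟨ε, hε⟩ := RR_reflect (2 * g + 2) (by omega) (taylor (a₀ : K) (membW ω G a))
      (by rw [natDegree_taylor]; exact hd)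
  rw [flip, hε, RR_taylor _ (by omega) _ _ hd, h0, mul_zero] at h5
  exact h5 rfl

/-- members of the family with coefficients in `K[t]` -/
theorem final_A {r : ℕ} (g : ℕ) (hg : 1 ≤ g) (cr : CRData g) (F : (MvPolynomial (Fin (r + 1)) K)[X])
    (hFd : F.natDegree ≤ 2 * g + 2) (N : ℕ) (hN : 0 < N)
    (G : (MvPolynomial (Fin (r + 1)) (𝓞 K))[X])
    (hG : G.map (PhiK K (r + 1)) = C ((N : MvPolynomial (Fin (r + 1)) K) ^ 2) * F)
    (hA : ∀ a : ℕ, G.eval (a : MvPolynomial (Fin (r + 1)) (𝓞 K)) ≠ 0 → CaseData cr (flipW g G a)) :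
    ∃ c : ℝ, ∀ t : Fin (r + 1) → 𝓞 K, IsHyperelliptic g (famMember F (fun i => (t i : K))) →
      (DeltaC g (famMember F (fun i => (t i : K))) : ℝ) ≤
        c * (MC g (famMember F (fun i => (t i : K))) : ℝ) ^ (2 * (2 * g + 1) * ((g + 1) / 2 + 1)) := by
  have hGd : G.natDegree ≤ 2 * g + 2 := by rw [clear_natDegree F N hN G hG]; exact hFd
  obtain ⟨C₀, hC₀⟩ := family_allA g hg cr G hGd hA
  refine ⟨C₀, ?_⟩
  intro t ht
  have hN0 : (N : K) ≠ 0 := by exact_mod_cast hN.ne'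
  have hfd : (famMember F (fun i => (t i : K))).natDegree ≤ 2 * g + 2 := natDegree_map_le.trans hFd
  have h1 := hC₀ t (by rw [clear_member F N G hG t]; exact (hyper_scale g _ _ hN0).2 ht)
  rw [clear_member F N G hG t, DeltaC_scale g _ hfd _ hN0, MC_scale g _ hfd _ hN0] at h1
  have h2 : (2 * g + 1) * (2 * ((g + 1) / 2 + 1)) = 2 * (2 * g + 1) * ((g + 1) / 2 + 1) := by ring
  rw [h2] at h1
  exact_mod_cast h1

theorem final_B (ω : Module.Basis ι ℤ (𝓞 K)) {r : ℕ} (g : ℕ) (hg : 1 ≤ g) (cr : CRData g)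
    (F : (MvPolynomial (Fin (r + 1)) K)[X])
    (hFd : F.natDegree ≤ 2 * g + 2) (N : ℕ) (hN : 0 < N)
    (G : (MvPolynomial (Fin (r + 1)) (𝓞 K))[X])
    (hG : G.map (PhiK K (r + 1)) = C ((N : MvPolynomial (Fin (r + 1)) K) ^ 2) * F)
    (hGR : RR (2 * g + 2) G ≠ 0) (a₀ : ℕ)
    (ha₀ : G.eval (a₀ : MvPolynomial (Fin (r + 1)) (𝓞 K)) ≠ 0)
    (hnA : ¬ CaseData cr (flipW g G a₀))
    (wt : Fin (r + 1) → ℕ) (m : ℕ) (hm : 0 < m) (hwt : ∀ i, m ≤ wt i)
    (D : ℕ) (hDw : ∀ s ∈ (RR (2 * g + 2) G).support, ∑ j, wt j * s j ≤ D) (κ θ : ℝ)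
    (hκ0 : 0 < κ) (hθ : D / κ < θ) :
    ∃ c : ℝ, ∀ H : ℕ, 1 ≤ H →
      ((({t : Fin (r + 1) → 𝓞 K | (∀ i j, |ω.repr (t i) j| ≤ (H : ℤ) ^ wt i) ∧
        ¬ (IsHyperelliptic g (famMember F (fun i => (t i : K))) ∧
          (DeltaC g (famMember F (fun i => (t i : K))) : ℝ) ≤
            (MC g (famMember F (fun i => (t i : K))) : ℝ) ^ κ)}).ncard : ℕ) : ℝ) ≤
      c * (H : ℝ) ^ (Module.finrank ℚ K * (∑ i, (wt i : ℝ) - m + θ)) := by
  classical
  have hGd : G.natDegree ≤ 2 * g + 2 := by rw [clear_natDegree F N hN G hG]; exact hFd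
  have hN0 : (N : K) ≠ 0 := by exact_mod_cast hN.ne'
  obtain ⟨c, hc, hmain⟩ := family_allB ω g hg cr G hGd hGR a₀ ha₀ hnA wt m hm hwt D hDw κ θ hκ0 hθ
  refine ⟨c, ?_⟩
  intro H hH
  obtain ⟨Bx, hBx, -, -⟩ := boxW_facts ω wt m hwt H hH
  set Ψ : (Fin (r + 1) → ι → ℤ) → (Fin (r + 1) → 𝓞 K) := fun a i => coordInt ω (a i) with hΨ
  have hmem : ∀ a : Fin (r + 1) → ι → ℤ, membW ω G a =
      C ((N : K) ^ 2) * famMember F (fun i => ((Ψ a i : 𝓞 K) : K)) := by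
    intro a
    rw [membW, clear_member F N G hG]
  have hfd : ∀ t : Fin (r + 1) → 𝓞 K, (famMember F (fun i => (t i : K))).natDegree ≤ 2 * g + 2 :=
    fun t => natDegree_map_le.trans hFd
  have hiff : ∀ a : Fin (r + 1) → ι → ℤ, (IsHyperelliptic g (membW ω G a) ∧
        (DeltaC g (membW ω G a) : ℝ) ≤ (MC g (membW ω G a) : ℝ) ^ κ) ↔
      (IsHyperelliptic g (famMember F (fun i => ((Ψ a i : 𝓞 K) : K))) ∧
        (DeltaC g (famMember F (fun i => ((Ψ a i : 𝓞 K) : K))) : ℝ) ≤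
            (MC g (famMember F (fun i => ((Ψ a i : 𝓞 K) : K))) : ℝ) ^ κ) := by
    intro a
    rw [hmem a, hyper_scale g _ _ hN0, DeltaC_scale g _ (hfd _) _ hN0, MC_scale g _ (hfd _) _ hN0]
  set S := (Fintype.piFinset Bx).filter (fun a =>
    ¬ (IsHyperelliptic g (membW ω G a) ∧
        (DeltaC g (membW ω G a) : ℝ) ≤ (MC g (membW ω G a) : ℝ) ^ κ)) with hS
  have hΨinj : Function.Injective Ψ := by
    intro a b hab
    funext i
    exact coordInt_inj ω (congrFun hab i)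
  have hrepr : ∀ a : ι → ℤ, ∀ j, ω.repr (coordInt ω a) j = a j := by
    intro a j
    rw [coordInt, ω.repr_sum_self]
  have hcoord : ∀ x : 𝓞 K, coordInt ω (fun j => ω.repr x j) = x := by
    intro x
    rw [coordInt, ω.sum_repr]
  have hset : {t : Fin (r + 1) → 𝓞 K | (∀ i j, |ω.repr (t i) j| ≤ (H : ℤ) ^ wt i) ∧
        ¬ (IsHyperelliptic g (famMember F (fun i => (t i : K))) ∧
          (DeltaC g (famMember F (fun i => (t i : K))) : ℝ) ≤
            (MC g (famMember F (fun i => (t i : K))) : ℝ) ^ κ)} = Ψ '' (S : Set _) := by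
    ext t
    constructor
    · rintro ⟨h1, h2⟩
      have hΨt : Ψ (fun i j => ω.repr (t i) j) = t := by
        funext i
        exact hcoord (t i)
      refine ⟨fun i j => ω.repr (t i) j, ?_, hΨt⟩
      rw [Finset.mem_coe, hS, Finset.mem_filter, Fintype.mem_piFinset]
      refine ⟨fun i => (hBx i _).2 (by
        intro j
        have := h1 i j
        push_cast
        exact this), ?_⟩
      rw [hiff, hΨt]
      exact h2
    · rintro ⟨a, ha, rfl⟩
      rw [Finset.mem_coe, hS, Finset.mem_filter, Fintype.mem_piFinset] at ha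
      refine ⟨?_, ?_⟩
      · intro i j
        simp only [hΨ, hrepr]
        have := (hBx i _).1 (ha.1 i) j
        push_cast at this
        exact this
      · have := ha.2
        rw [hiff] at this
        exact this
  rw [hset, Set.ncard_image_of_injective _ hΨinj, Set.ncard_coe_finset]
  have h1 := hmain H hH S (by
    intro a ha
    rw [hS, Finset.mem_filter, Fintype.mem_piFinset] at ha
    exact ⟨fun i => (hBx i _).1 (ha.1 i), ha.2⟩)
  push_cast at h1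
  exact h1

end

end Pool.Agent.Lib.MP_ca2859_nt
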