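import Mathlib
import Pool.Agent.Lib.MP_ca2859_nt.FamC

/-!
# Families: integrality of the cross ratios of the roots
-/

open NumberField Polynomial

set_option linter.unusedSectionVars false

namespace Pool.Agent.Lib.MP_ca2859_nt

/-- the cross ratio of four elements of a field -/
noncomputable def cr4 {O : Type} [Field O] (b : Fin 4 → O) : O :=
  ((b 0 - b 1) * (b 2 - b 3)) / ((b 0 - b 2) * (b 1 - b 3))

/-- two injections of four elements differ by a permutation -/
theorem exists_perm_ext {n : ℕ} (p j : Fin 4 → Fin n) (hp : Function.Injective p)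
    (hj : Function.Injective j) : ∃ σ : Equiv.Perm (Fin n), ∀ i, σ (p i) = j i := by
  classical
  let e : {x // x ∈ Set.range p} ≃ {x // x ∈ Set.range j} :=
    (Equiv.ofInjective p hp).symm.trans (Equiv.ofInjective j hj)
  refine ⟨e.extendSubtype, fun i => ?_⟩
  rw [Equiv.extendSubtype_apply_of_mem e (p i) (Set.mem_range_self i)]
  have h1 : (Equiv.ofInjective p hp).symm ⟨p i, Set.mem_range_self i⟩ = i :=
    Equiv.ofInjective_symm_apply hp i
  show (((Equiv.ofInjective j hj) ((Equiv.ofInjective p hp).symm ⟨p i, Set.mem_range_self i⟩) :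
    Set.range j) : Fin n) = j i
  rw [h1]
  rfl

section
variable {K : Type} [Field K] [NumberField K]

/-- an integral quotient becomes an element in an integrally closed extension -/
theorem div_of_integral_aux {A B O : Type} [CommRing A] [IsDomain A] [CommRing B] [IsDomain B]
    [IsIntegrallyClosed B] (ι : A →+* B) (hinj : Function.Injective ι) [Field O] [Algebra A O]
    [Algebra (FractionRing A) O] [IsScalarTower A (FractionRing A) O]
    (u q : A) (hq : q ≠ 0) (x : O) (hx : IsIntegral A x)
    (h : algebraMap A O u = algebraMap A O q * x) : ∃ y : B, ι u = ι q * y := by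
  have hinjO : Function.Injective (algebraMap (FractionRing A) O) :=
    (algebraMap (FractionRing A) O).injective
  have hinjA : Function.Injective (algebraMap A (FractionRing A)) := IsFractionRing.injective A _
  have hq' : algebraMap A (FractionRing A) q ≠ 0 := by
    intro h0
    exact hq (hinjA (by rw [h0, map_zero]))
  -- the element of the field of fractions
  have hx' : x = algebraMap (FractionRing A) O (algebraMap A (FractionRing A) u /
      algebraMap A (FractionRing A) q) := by
    have h1 : algebraMap (FractionRing A) O (algebraMap A (FractionRing A) q) ≠ 0 := by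
      intro h0
      exact hq' (hinjO (by rw [h0, map_zero]))
    rw [map_div₀, eq_div_iff h1, ← IsScalarTower.algebraMap_apply, ← IsScalarTower.algebraMap_apply,
      h, mul_comm]
  rw [hx', isIntegral_algebraMap_iff hinjO] at hx
  have hψ : ∀ a : A, (IsFractionRing.map hinj : FractionRing A →+* FractionRing B)
      (algebraMap A (FractionRing A) a) = algebraMap B (FractionRing B) (ι a) :=
    fun a => IsLocalization.map_eq _ a
  have h2 : IsIntegral B ((IsFractionRing.map hinj : FractionRing A →+* FractionRing B)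
      (algebraMap A (FractionRing A) u / algebraMap A (FractionRing A) q)) := by
    refine hx.map_of_comp_eq ι _ ?_
    ext1 a
    exact (hψ a).symm
  obtain ⟨y, hy⟩ := IsIntegrallyClosed.isIntegral_iff.1 h2
  have hinjL : Function.Injective (algebraMap B (FractionRing B)) :=
    IsFractionRing.injective _ _
  refine ⟨y, hinjL ?_⟩
  rw [map_mul, hy, map_div₀, hψ, hψ, mul_div_cancel₀]
  intro h0
  have h4 : ι q = 0 := hinjL (by rw [h0, map_zero])
  exact hq (hinj (by rw [h4, map_zero]))

/-- an integral quotient of two polynomials over `𝓞 K` is a polynomial up to a natural number -/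
theorem div_of_integral {r : ℕ} {O : Type} [Field O] [Algebra (MvPolynomial (Fin r) (𝓞 K)) O]
    [Algebra (FractionRing (MvPolynomial (Fin r) (𝓞 K))) O]
    [IsScalarTower (MvPolynomial (Fin r) (𝓞 K)) (FractionRing (MvPolynomial (Fin r) (𝓞 K))) O]
    (u q : MvPolynomial (Fin r) (𝓞 K)) (hq : q ≠ 0) (x : O)
    (hx : IsIntegral (MvPolynomial (Fin r) (𝓞 K)) x)
    (h : algebraMap (MvPolynomial (Fin r) (𝓞 K)) O u =
      algebraMap (MvPolynomial (Fin r) (𝓞 K)) O q * x) :
    ∃ m : ℕ, 0 < m ∧ ∃ s, (m : MvPolynomial (Fin r) (𝓞 K)) * u = q * s := by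
  have hinj : Function.Injective (MvPolynomial.map (σ := Fin r) (algebraMap (𝓞 K) K)) :=
    MvPolynomial.map_injective _ (FaithfulSMul.algebraMap_injective _ _)
  obtain ⟨y, hy⟩ := div_of_integral_aux (MvPolynomial.map (algebraMap (𝓞 K) K)) hinj u q hq x hx h
  obtain ⟨m, hm, s, hs⟩ := clear_poly y
  refine ⟨m, hm, s, hinj ?_⟩
  rw [map_mul, map_natCast, hy, map_mul, hs]
  ring

/-- products of polynomials with integral coefficients have integral coefficients -/
theorem prod_coeff_integral {A O σ : Type} [CommRing A] [CommRing O] [Algebra A O] (s : Finset σ)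
    (G : σ → O[X]) (h : ∀ i ∈ s, ∀ k, IsIntegral A ((G i).coeff k)) (k : ℕ) :
    IsIntegral A ((∏ i ∈ s, G i).coeff k) := by
  classical
  induction s using Finset.induction_on generalizing k with
  | empty =>
    rw [Finset.prod_empty, coeff_one]
    split_ifs
    · exact isIntegral_one
    · exact isIntegral_zero
  | insert a s ha ih =>
    rw [Finset.prod_insert ha, coeff_mul]
    refine IsIntegral.sum _ fun x _ => ?_
    exact (h a (Finset.mem_insert_self _ _) _).mul
      (ih (fun i hi => h i (Finset.mem_insert_of_mem hi)) _)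

theorem caseA_iff (g : ℕ) (hg : 1 ≤ g) (cr : CRData g) {r : ℕ}
    (F : (MvPolynomial (Fin r) (𝓞 K))[X]) (hFd : F.natDegree ≤ 2 * g + 1 + 1)
    (hFn : F.coeff (2 * g + 1 + 1) ≠ 0) (hR : RR (2 * g + 2) F ≠ 0) :
    (∃ m : ℕ, 0 < m ∧ ∀ k ≤ cr.top, ∃ s,
      (m : MvPolynomial (Fin r) (𝓞 K)) * evT F (cr.T k) = evT F (cr.T cr.top) * s) ↔
    ∀ b : Fin 4 → AlgebraicClosure (FractionRing (MvPolynomial (Fin r) (𝓞 K))),
      Function.Injective b → (∀ i, Polynomial.aeval (b i) F = 0) →
      ∃ n : ℕ, 0 < n ∧ IsIntegral (MvPolynomial (Fin r) (𝓞 K))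
        ((n : AlgebraicClosure (FractionRing (MvPolynomial (Fin r) (𝓞 K)))) * cr4 b) := by
  classical
  set A := MvPolynomial (Fin r) (𝓞 K) with hA
  set Fr := FractionRing A with hFr
  set Om := AlgebraicClosure Fr with hOm
  have hinjA : Function.Injective (algebraMap A Fr) := IsFractionRing.injective A Fr
  have hinjO : Function.Injective (algebraMap A Om) := by
    rw [IsScalarTower.algebraMap_eq A Fr Om]
    exact (algebraMap Fr Om).injective.comp hinjA
  have hchar : CharZero Om := charZero_of_injective_algebraMap hinjO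
  have hFd' : F.natDegree = 2 * g + 2 :=
    le_antisymm hFd (le_natDegree_of_ne_zero hFn)
  set FO := F.map (algebraMap A Om) with hFO
  have hFOd : FO.natDegree = 2 * g + 2 := by
    rw [hFO, natDegree_map_eq_of_injective hinjO, hFd']
  obtain ⟨α, hα⟩ := split_enum FO (IsAlgClosed.splits _) (2 * g + 2) hFOd
  set a := FO.leadingCoeff with ha
  have ha0 : a ≠ 0 := by
    rw [ha, leadingCoeff_ne_zero]
    intro h0
    rw [h0] at hFOd
    simp at hFOd
  have hRO : RR (2 * g + 2) FO ≠ 0 := by
    rw [hFO, RR_map]
    intro h0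
    exact hR (hinjO (by rw [h0, map_zero]))
  have hyp := hyper_of_RR g FO hFOd hRO
  have hαinj : Function.Injective α := by
    intro i j hij
    by_contra hne
    have hsep := hyp.1
    rw [hα] at hsep
    have h1 : (∏ j, (X - C (α j)) : Om[X]).Separable := hsep.of_mul_right
    rw [separable_prod_X_sub_C_iff] at h1
    exact hne (h1 hij)
  have hsub : ∀ i j, i ≠ j → α i - α j ≠ 0 := fun i j hij h => hij (hαinj (sub_eq_zero.1 h))
  have hcrd : ∀ σ, crd cr.p α σ ≠ 0 := fun σ =>
    mul_ne_zero (hsub _ _ fun h => absurd (cr.hp (σ.injective h)) (by decide))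
      (hsub _ _ fun h => absurd (cr.hp (σ.injective h)) (by decide))
  have hev : ∀ k, algebraMap A Om (evT F (cr.T k)) = a ^ cr.N * (CR cr.p α).coeff k := by
    intro k
    rw [evT_map, ← hFO, hα]
    exact cr.hT Om a α k
  have htop : algebraMap A Om (evT F (cr.T cr.top)) = a ^ cr.N * ∏ σ, crd cr.p α σ := by
    rw [hev]
    congr 1
    exact CR_top cr.p α
  have hq : evT F (cr.T cr.top) ≠ 0 := by
    intro h0
    rw [h0, map_zero] at htop
    exact mul_ne_zero (pow_ne_zero _ ha0) (Finset.prod_ne_zero_iff.2 fun σ _ => hcrd σ) htop.symm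
  have hroot : ∀ x : Om, Polynomial.aeval x F = 0 ↔ ∃ j, x = α j := by
    intro x
    have h1 : Polynomial.aeval x F = FO.eval x := by
      rw [hFO, eval_map_algebraMap]
    rw [h1, hα, eval_mul, eval_C, eval_prod, mul_eq_zero]
    constructor
    · rintro (h2 | h2)
      · exact absurd h2 ha0
      · obtain ⟨j, -, hj⟩ := Finset.prod_eq_zero_iff.1 h2
        refine ⟨j, ?_⟩
        rw [eval_sub, eval_X, eval_C] at hj
        exact sub_eq_zero.1 hj
    · rintro ⟨j, rfl⟩
      right
      refine Finset.prod_eq_zero (Finset.mem_univ j) ?_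
      rw [eval_sub, eval_X, eval_C, sub_self]
  constructor
  · rintro ⟨m, hm, hs⟩ b hb hbr
    choose j hj using fun i => (hroot (b i)).1 (hbr i)
    have hjinj : Function.Injective j := by
      intro i i' h
      apply hb
      rw [hj, hj, h]
    obtain ⟨σ, hσ⟩ := exists_perm_ext cr.p j cr.hp hjinj
    have hc : cr4 b * crd cr.p α σ = crn cr.p α σ := by
      have h1 : cr4 b = crn cr.p α σ / crd cr.p α σ := by
        rw [cr4, crn, crd, hσ, hσ, hσ, hσ, ← hj, ← hj, ← hj, ← hj]
      rw [h1, div_mul_cancel₀ _ (hcrd σ)]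
    have hzero : (CR cr.p α).eval (cr4 b) = 0 := by
      rw [CR, eval_prod]
      refine Finset.prod_eq_zero (Finset.mem_univ σ) ?_
      rw [eval_sub, eval_mul, eval_C, eval_X, eval_C, mul_comm, hc, sub_self]
    choose! s hs' using hs
    have hdeg : (CR cr.p α).natDegree ≤ cr.top := by
      have h2 : (CR cr.p α).natDegree ≤ ∑ σ : Equiv.Perm (Fin (2 * g + 2)), 1 := by
        rw [CR]
        refine (natDegree_prod_le _ _).trans (Finset.sum_le_sum fun σ _ => ?_)
        exact CR_natDegree_le cr.p α σ
      rw [Finset.sum_const, Finset.card_univ, smul_eq_mul, mul_one] at h2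
      exact h2
    have hsum : ∑ k ∈ Finset.range (cr.top + 1), algebraMap A Om (s k) * cr4 b ^ k = 0 := by
      rw [eval_eq_sum_range' (Nat.lt_succ_of_le hdeg)] at hzero
      have h1 : algebraMap A Om (evT F (cr.T cr.top)) *
          ∑ k ∈ Finset.range (cr.top + 1), algebraMap A Om (s k) * cr4 b ^ k =
          (m : Om) * a ^ cr.N * ∑ k ∈ Finset.range (cr.top + 1),
            (CR cr.p α).coeff k * cr4 b ^ k := by
        rw [Finset.mul_sum, Finset.mul_sum]
        refine Finset.sum_congr rfl fun k hk => ?_
        have h2 := congrArg (algebraMap A Om)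
          (hs' k (Nat.lt_succ_iff.1 (Finset.mem_range.1 hk)))
        rw [map_mul, map_mul, map_natCast, hev k] at h2
        rw [← mul_assoc, ← h2]
        ring
      rw [hzero, mul_zero] at h1
      refine (mul_eq_zero.1 h1).resolve_left ?_
      intro h0
      exact hq (hinjO (by rw [h0, map_zero]))
    have hstop : s cr.top = (m : A) := by
      have h1 := hs' cr.top le_rfl
      rw [mul_comm] at h1
      exact (mul_left_cancel₀ hq h1).symm
    have hm0 : ((m : ℕ) : A) ≠ 0 := by
      have : CharZero A := charZero_of_injective_algebraMap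
        (R := ℤ) (FaithfulSMul.algebraMap_injective ℤ A)
      exact_mod_cast hm.ne'
    set G : A[X] := ∑ k ∈ Finset.range (cr.top + 1), C (s k) * X ^ k with hG
    have hGc : ∀ k ≤ cr.top, G.coeff k = s k := by
      intro k hk
      rw [hG, finsetSum_coeff]
      simp only [coeff_C_mul, coeff_X_pow]
      rw [Finset.sum_eq_single k]
      · rw [if_pos rfl, mul_one]
      · intro i _ hi
        rw [if_neg (fun h => hi h.symm), mul_zero]
      · intro h
        exact absurd (Finset.mem_range.2 (Nat.lt_succ_of_le hk)) h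
    have hGd : G.natDegree = cr.top := by
      apply le_antisymm
      · rw [hG]
        refine natDegree_sum_le_of_forall_le _ _ fun k hk => ?_
        exact (natDegree_C_mul_X_pow_le _ _).trans (Nat.lt_succ_iff.1 (Finset.mem_range.1 hk))
      · apply le_natDegree_of_ne_zero
        rw [hGc _ le_rfl, hstop]
        exact hm0
    have hlc : G.leadingCoeff = (m : A) := by
      rw [leadingCoeff, hGd, hGc _ le_rfl, hstop]
    have hGa : Polynomial.aeval (cr4 b) G = 0 := by
      rw [hG, map_sum, ← hsum]
      refine Finset.sum_congr rfl fun k _ => ?_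
      rw [map_mul, aeval_C, map_pow, aeval_X]
    have h1 := isIntegral_leadingCoeff_smul G (cr4 b) hGa
    rw [hlc, Algebra.smul_def, map_natCast] at h1
    exact ⟨m, hm, h1⟩
  · intro h
    have h1 : ∀ σ : Equiv.Perm (Fin (2 * g + 2)), ∃ n : ℕ, 0 < n ∧
        IsIntegral A ((n : Om) * (crn cr.p α σ / crd cr.p α σ)) := by
      intro σ
      have h2 := h (fun i => α (σ (cr.p i)))
        (fun i j hij => cr.hp (σ.injective (hαinj hij)))
        (fun i => (hroot _).2 ⟨_, rfl⟩)
      exact h2
    choose n hn hint using h1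
    set N := ∏ σ, n σ with hN
    have hNpos : 0 < N := Finset.prod_pos fun σ _ => hn σ
    have hint' : ∀ σ, IsIntegral A ((N : Om) * (crn cr.p α σ / crd cr.p α σ)) := by
      intro σ
      obtain ⟨c, hc⟩ := Finset.dvd_prod_of_mem n (Finset.mem_univ σ)
      rw [← hN] at hc
      rw [hc, Nat.cast_mul, mul_comm ((n σ : ℕ) : Om) (c : Om), mul_assoc]
      have hci : IsIntegral A ((c : ℕ) : Om) := by
        rw [← map_natCast (algebraMap A Om) c]
        exact isIntegral_algebraMap
      exact hci.mul (hint σ)
    set H : Om[X] := ∏ σ : Equiv.Perm (Fin (2 * g + 2)),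
      (C (N : Om) * X - C ((N : Om) * (crn cr.p α σ / crd cr.p α σ))) with hH
    have hHint : ∀ k, IsIntegral A (H.coeff k) := by
      intro k
      refine prod_coeff_integral _ _ (fun σ _ k => ?_) k
      rw [coeff_sub, coeff_C_mul, coeff_C]
      have hNi : IsIntegral A ((N : ℕ) : Om) := by
        rw [← map_natCast (algebraMap A Om) N]
        exact isIntegral_algebraMap
      refine IsIntegral.sub (hNi.mul ?_) ?_
      · rw [coeff_X]
        split_ifs
        · exact isIntegral_one
        · exact isIntegral_zero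
      · split_ifs
        · exact hint' σ
        · exact isIntegral_zero
    have hCRH : C ((N : Om) ^ cr.top) * CR cr.p α = C (∏ σ, crd cr.p α σ) * H := by
      rw [CR, hH, map_prod C, ← Finset.prod_mul_distrib, CRData.top, ← Finset.card_univ,
        ← Finset.prod_const, map_prod C, ← Finset.prod_mul_distrib]
      refine Finset.prod_congr rfl fun σ _ => ?_
      have h3 : crn cr.p α σ = crd cr.p α σ * (crn cr.p α σ / crd cr.p α σ) := by
        rw [mul_div_cancel₀ _ (hcrd σ)]
      rw [mul_sub, mul_sub, ← mul_assoc, ← mul_assoc, ← C_mul, ← C_mul, ← C_mul, ← C_mul,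
        mul_comm (crd cr.p α σ) ((N : ℕ) : Om)]
      congr 2
      rw [mul_left_comm, ← h3]
    have hdiv : ∀ k, ∃ m : ℕ, 0 < m ∧ ∃ s, (m : A) * ((N : A) ^ cr.top * evT F (cr.T k)) =
        evT F (cr.T cr.top) * s := by
      intro k
      refine div_of_integral (O := Om) _ _ hq (H.coeff k) (hHint k) ?_
      have h4 := congrArg (fun G : Om[X] => G.coeff k) hCRH
      simp only [coeff_C_mul] at h4
      rw [map_mul, map_pow, map_natCast, hev, htop]
      linear_combination (a ^ cr.N) * h4
    choose m hm s hs using hdiv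
    refine ⟨(∏ k ∈ Finset.range (cr.top + 1), m k) * N ^ cr.top,
      Nat.mul_pos (Finset.prod_pos fun k _ => hm k) (pow_pos hNpos _), ?_⟩
    intro k hk
    obtain ⟨c, hc⟩ := Finset.dvd_prod_of_mem m (Finset.mem_range.2 (Nat.lt_succ_of_le hk))
    refine ⟨(c : A) * s k, ?_⟩
    rw [hc]
    push_cast
    linear_combination (c : A) * hs k

end

end Pool.Agent.Lib.MP_ca2859_nt
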