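import Mathlib
import Pool.Agent.Lib.MP_ca2859_nt.Local2
import Pool.Agent.Lib.MP_ca2859_nt.PF.Red

/-!
# The discriminant of a family
-/

open NumberField Polynomial IsDedekindDomain WithZero

set_option linter.unusedSectionVars false

namespace Pool.Agent.Lib.MP_ca2859_nt

theorem discr_map_inj {R S : Type*} [CommRing R] [IsDomain R] [CommRing S] [IsDomain S]
    (φ : R →+* S) (hφ : Function.Injective φ) (f : R[X]) (hf : 0 < f.natDegree) :
    (f.map φ).discr = φ f.discr := by
  have hd : (f.map φ).natDegree = f.natDegree := natDegree_map_eq_of_injective hφ f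
  have h1 : 0 < f.degree := natDegree_pos_iff_degree_pos.1 hf
  have h2 : 0 < (f.map φ).degree := natDegree_pos_iff_degree_pos.1 (by rw [hd]; exact hf)
  have h3 := resultant_deriv h1
  have h4 := resultant_deriv h2
  rw [derivative_map, hd, leadingCoeff_map_of_injective hφ, resultant_map_map, h3, map_mul, map_mul,
    map_pow, map_neg, map_one] at h4
  have hlc : φ f.leadingCoeff ≠ 0 := by
    intro h0
    have h5 : f.leadingCoeff = 0 := hφ (by rw [h0, map_zero])
    rw [leadingCoeff_eq_zero] at h5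
    rw [h5] at hf
    simp at hf
  have h6 : ((-1 : S) ^ (f.natDegree * (f.natDegree - 1) / 2) * φ f.leadingCoeff) ≠ 0 :=
    mul_ne_zero (pow_ne_zero _ (neg_ne_zero.2 one_ne_zero)) hlc
  exact (mul_left_cancel₀ h6 h4).symm

section
variable {K : Type} [Field K] [NumberField K]

theorem RR_famDisc {r : ℕ} (g : ℕ) (hg : 1 ≤ g) (F : (MvPolynomial (Fin r) K)[X])
    (hd : F.natDegree = 2 * g + 1 ∨ F.natDegree = 2 * g + 2) :
    ∃ b : K, RR (2 * g + 2) F = MvPolynomial.C b * famDisc g F := by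
  set B := MvPolynomial (Fin r) K with hB
  set L := FractionRing B with hL
  have hinj : Function.Injective (algebraMap B L) := IsFractionRing.injective _ _
  have hchar : CharZero L := charZero_of_injective_algebraMap hinj
  have hmd : (F.map (algebraMap B L)).natDegree = F.natDegree := natDegree_map_eq_of_injective hinj F
  obtain ⟨ε, hε⟩ := RR_eqDisc g hg (F.map (algebraMap B L)) (by rw [hmd]; exact hd)
  have h1 : eqDisc g (F.map (algebraMap B L)) = 2 ^ (4 * g) * algebraMap B L (famDisc g F) := by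
    rw [eqDisc, famDisc, hmd, discr_map_inj _ hinj F (by omega), leadingCoeff_map_of_injective hinj]
    split_ifs
    · rfl
    · rw [map_mul, map_pow]; ring
  have h2 : (2 : L) ^ (4 * g) ≠ 0 := pow_ne_zero _ two_ne_zero
  refine ⟨((ε : ℤ) : K) * ((2 * g + 2 : ℕ) : K) ^ (2 * g), hinj ?_⟩
  rw [h1, RR_map] at hε
  have h3 : algebraMap B L (RR (2 * g + 2) F) =
      ((ε : ℤ) : L) * ((2 * g + 2 : ℕ) : L) ^ (2 * g) * algebraMap B L (famDisc g F) := by
    apply mul_right_cancel₀ h2
    rw [hε]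
    ring
  rw [h3, map_mul (algebraMap B L)]
  congr 1
  have h4 : (MvPolynomial.C (((ε : ℤ) : K) * ((2 * g + 2 : ℕ) : K) ^ (2 * g)) : B) =
      ((ε : ℤ) : B) * ((2 * g + 2 : ℕ) : B) ^ (2 * g) := by
    rw [map_mul, map_pow, map_intCast, map_natCast]
  rw [h4, map_mul, map_pow, map_intCast, map_natCast]

theorem RR_support {r : ℕ} (g : ℕ) (hg : 1 ≤ g) (F : (MvPolynomial (Fin r) K)[X])
    (hd : F.natDegree = 2 * g + 1 ∨ F.natDegree = 2 * g + 2) (N : ℕ)
    (G : (MvPolynomial (Fin r) (𝓞 K))[X])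
    (hG : G.map (PhiK K r) = C ((N : MvPolynomial (Fin r) K) ^ 2) * F) :
    (RR (2 * g + 2) G).support ⊆ (famDisc g F).support := by
  obtain ⟨b, hb⟩ := RR_famDisc g hg F hd
  have h1 : PhiK K r (RR (2 * g + 2) G) = MvPolynomial.C (((N : K) ^ 2) ^ (2 * (2 * g + 2 - 1)) * b) *
      famDisc g F := by
    rw [← RR_map, hG, RR_C_mul, hb, map_mul, map_pow, map_pow, map_natCast]
    ring
  intro s hs
  rw [MvPolynomial.mem_support_iff] at hs ⊢
  intro h0
  apply hs
  have h2 := congrArg (MvPolynomial.coeff s) h1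
  rw [PhiK, MvPolynomial.coeff_map, MvPolynomial.coeff_C_mul, h0, mul_zero] at h2
  exact (FaithfulSMul.algebraMap_eq_zero_iff (𝓞 K) K).1 h2

end

end Pool.Agent.Lib.MP_ca2859_nt
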