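import Mathlib
import Pool.Agent.Lib.MP_ca2859_nt.Mobius
import Pool.Agent.Lib.MP_ca2859_nt.PF.Defs

/-!
# Changes of coordinate in families
-/

open Polynomial WithZero IsDedekindDomain NumberField

set_option linter.unusedSectionVars false

namespace Pool.Agent.Lib.MP_ca2859_nt

section
variable {F : Type*} [Field F]

theorem flip_eq_mobP [Infinite F] (g : ℕ) (a : F) (f : F[X]) (hf : f.natDegree ≤ 2 * g + 2) :
    flip g a f = mobP (2 * g + 2) f a 1 1 0 := by
  have hz : (flip g a f - mobP (2 * g + 2) f a 1 1 0) * X = 0 := by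
    apply Polynomial.funext
    intro x
    rw [eval_zero, eval_mul, eval_X, eval_sub]
    by_cases hx : x = 0
    · rw [hx, mul_zero]
    · rw [flip_eval g a f hf x hx, mobP_eval _ f hf a 1 1 0 x (by simpa using hx)]
      have : (a * x + 1) / (1 * x + 0) = x⁻¹ + a := by
        rw [one_mul, add_zero, add_div, mul_div_assoc, div_self hx, mul_one, one_div, add_comm]
      rw [this]
      ring
  rcases mul_eq_zero.1 hz with h | h
  · exact sub_eq_zero.1 h
  · exact absurd h X_ne_zero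

theorem flip_eval_all [Infinite F] (g : ℕ) (a : F) (f : F[X]) (hf : f.natDegree ≤ 2 * g + 2) (x : F) :
    (flip g a f).eval x =
      ∑ j ∈ Finset.range (2 * g + 3), f.coeff j * (a * x + 1) ^ j * x ^ (2 * g + 2 - j) := by
  rw [flip_eq_mobP g a f hf, mobP, eval_finsetSum]
  apply Finset.sum_congr rfl
  intro j _
  simp

end

section
variable {Ω : Type} [Field Ω] [CharZero Ω]

/-- the cross ratio of four elements -/
theorem crossRatio_flip (a : Ω) (β : Fin 4 → Ω) :
    crossRatio (fun i => a * β i + 1) β =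
      ((β 0 - β 1) * (β 2 - β 3)) / ((β 0 - β 2) * (β 1 - β 3)) := by
  rw [crossRatio]
  have h : ∀ i j, (a * β i + 1) * β j - (a * β j + 1) * β i = -(β i - β j) := by
    intro i j; ring
  rw [h, h, h, h]
  congr 1 <;> ring

/-- points with nonzero denominators -/
theorem crossRatio_unflip (a : Ω) (x z : Fin 4 → Ω) (hu : ∀ i, x i - a * z i ≠ 0) :
    crossRatio x z = ((z 0 / (x 0 - a * z 0) - z 1 / (x 1 - a * z 1)) *
      (z 2 / (x 2 - a * z 2) - z 3 / (x 3 - a * z 3))) /
      ((z 0 / (x 0 - a * z 0) - z 2 / (x 2 - a * z 2)) *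
      (z 1 / (x 1 - a * z 1) - z 3 / (x 3 - a * z 3))) := by
  have h : ∀ i j, z i / (x i - a * z i) - z j / (x j - a * z j) =
      -(x i * z j - x j * z i) / ((x i - a * z i) * (x j - a * z j)) := by
    intro i j
    rw [div_sub_div _ _ (hu i) (hu j)]
    congr 1
    ring
  rw [h, h, h, h, crossRatio]
  have h0 := hu 0
  have h1 := hu 1
  have h2 := hu 2
  have h3 := hu 3
  generalize x 0 - a * z 0 = u0 at *
  generalize x 1 - a * z 1 = u1 at *
  generalize x 2 - a * z 2 = u2 at *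
  generalize x 3 - a * z 3 = u3 at *
  rw [div_mul_div_comm, div_mul_div_comm, div_div_div_eq]
  have h4 : u0 * u1 * (u2 * u3) ≠ 0 := by positivity
  rw [show (-(x 0 * z 1 - x 1 * z 0) * -(x 2 * z 3 - x 3 * z 2)) * (u0 * u2 * (u1 * u3)) =
    ((x 0 * z 1 - x 1 * z 0) * (x 2 * z 3 - x 3 * z 2)) * (u0 * u1 * (u2 * u3)) by ring,
    show (u0 * u1 * (u2 * u3)) * (-(x 0 * z 2 - x 2 * z 0) * -(x 1 * z 3 - x 3 * z 1)) =
    ((x 0 * z 2 - x 2 * z 0) * (x 1 * z 3 - x 3 * z 1)) * (u0 * u1 * (u2 * u3)) by ring,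
    mul_div_mul_right _ _ h4]

end

end Pool.Agent.Lib.MP_ca2859_nt
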