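import Mathlib
import Pool.Agent.Lib.MP_ca2859_nt.PF.Flip
import Pool.Agent.Lib.MP_ca2859_nt.PF.Red
import Pool.Agent.Lib.MP_ca2859_nt.PF.Fin

/-!
# Potentially good families and cross ratios of the roots of the transforms
-/

open Polynomial NumberField

set_option linter.unusedSectionVars false

namespace Pool.Agent.Lib.MP_ca2859_nt

section
variable {K : Type} [Field K] [NumberField K] {r : ℕ} {Ω : Type} [Field Ω] [CharZero Ω]

theorem int_down (ψ : MvPolynomial (Fin r) K →+* Ω) (x : Ω) (n : ℕ) (hn : 0 < n)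
    (h : (ψ.comp (PhiK K r)).IsIntegralElem ((n : Ω) * x)) : ψ.IsIntegralElem x := by
  letI := ψ.toAlgebra
  have h1 : IsIntegral (MvPolynomial (Fin r) K) ((n : Ω) * x) := by
    obtain ⟨p, hp, hpx⟩ := h
    refine ⟨p.map (PhiK K r), hp.map _, ?_⟩
    rw [eval₂_map]
    exact hpx
  have h2 : IsIntegral (MvPolynomial (Fin r) K)
      (algebraMap (MvPolynomial (Fin r) K) Ω (MvPolynomial.C ((n : K)⁻¹))) := isIntegral_algebraMap
  have h3 := h2.mul h1
  have hnK : (n : K) ≠ 0 := by exact_mod_cast hn.ne'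
  have h4 : algebraMap (MvPolynomial (Fin r) K) Ω (MvPolynomial.C ((n : K)⁻¹)) * ((n : Ω) * x) = x := by
    rw [← mul_assoc]
    have h5 : (n : Ω) = algebraMap (MvPolynomial (Fin r) K) Ω (MvPolynomial.C (n : K)) := by
      rw [map_natCast (MvPolynomial.C : K →+* MvPolynomial (Fin r) K),
        map_natCast (algebraMap (MvPolynomial (Fin r) K) Ω)]
    rw [h5, ← map_mul, ← map_mul, inv_mul_cancel₀ hnK, map_one, map_one, one_mul]
  rw [h4] at h3
  exact h3

theorem int_up (ψ : MvPolynomial (Fin r) K →+* Ω) (x : Ω) (h : ψ.IsIntegralElem x) :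
    ∃ n : ℕ, 0 < n ∧ (ψ.comp (PhiK K r)).IsIntegralElem ((n : Ω) * x) := by
  obtain ⟨p, hp, hpx⟩ := h
  obtain ⟨N, G, hN, hG⟩ := clear_family p
  refine ⟨N, hN, ?_⟩
  letI := (ψ.comp (PhiK K r)).toAlgebra
  have hlc : G.leadingCoeff = (N : MvPolynomial (Fin r) (𝓞 K)) := by
    apply PhiK_inj (K := K) r
    rw [← leadingCoeff_map_of_injective (PhiK_inj r) G, hG, leadingCoeff_mul, leadingCoeff_C,
      hp.leadingCoeff, mul_one, map_natCast (PhiK K r)]
  have h0 : aeval x G = 0 := by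
    have h1 : aeval x G = eval₂ (ψ.comp (PhiK K r)) x G := rfl
    rw [h1, ← eval₂_map, hG, eval₂_mul, hpx, mul_zero]
  have h2 := isIntegral_leadingCoeff_smul G x h0
  rw [hlc] at h2
  have h3 : ((N : MvPolynomial (Fin r) (𝓞 K)) • x) = (N : Ω) * x := by
    rw [Algebra.smul_def, map_natCast]
  rw [h3] at h2
  exact h2

theorem flipW_eval (ψ : MvPolynomial (Fin r) K →+* Ω) (g : ℕ) (F : (MvPolynomial (Fin r) K)[X])
    (N : ℕ) (G : (MvPolynomial (Fin r) (𝓞 K))[X])
    (hG : G.map (PhiK K r) = C ((N : MvPolynomial (Fin r) K) ^ 2) * F)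
    (hGd : G.natDegree ≤ 2 * g + 2) (a : ℕ) (β : Ω) :
    eval₂ (ψ.comp (PhiK K r)) β (flipW g G a) = (N : Ω) ^ 2 *
      ∑ j ∈ Finset.range (2 * g + 3), ψ (F.coeff j) * ((a : Ω) * β + 1) ^ j * β ^ (2 * g + 2 - j) := by
  set χ := ψ.comp (PhiK K r) with hχ
  have h1 : (flipW g G a).map χ = flip g (a : Ω) (G.map χ) := by
    rw [flipW, flip]
    ext i
    rw [coeff_map, coeff_reflect, coeff_reflect, ← coeff_map, taylor_apply, taylor_apply,
      Polynomial.map_comp]
    simp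
  rw [eval₂_eq_eval_map, h1, flip_eval_all g (a : Ω) _ (natDegree_map_le.trans hGd), Finset.mul_sum]
  apply Finset.sum_congr rfl
  intro j _
  rw [coeff_map, hχ, RingHom.comp_apply, clear_coeff F N G hG j, map_mul ψ, map_pow ψ, map_natCast ψ]
  ring

/-- the condition on the cross ratios of the roots of a transform -/
def CrossI (χ : MvPolynomial (Fin r) (𝓞 K) →+* Ω) (G : (MvPolynomial (Fin r) (𝓞 K))[X]) : Prop :=
  ∀ β : Fin 4 → Ω, Function.Injective β → (∀ i, eval₂ χ (β i) G = 0) →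
    ∃ n : ℕ, 0 < n ∧ χ.IsIntegralElem ((n : Ω) *
      (((β 0 - β 1) * (β 2 - β 3)) / ((β 0 - β 2) * (β 1 - β 3))))

theorem crossI_of_pot (ψ : MvPolynomial (Fin r) K →+* Ω) (g : ℕ) (F : (MvPolynomial (Fin r) K)[X])
    (N : ℕ) (hN : 0 < N) (G : (MvPolynomial (Fin r) (𝓞 K))[X])
    (hG : G.map (PhiK K r) = C ((N : MvPolynomial (Fin r) K) ^ 2) * F)
    (hGd : G.natDegree ≤ 2 * g + 2)
    (hPG : ∀ x z : Fin 4 → Ω, (∀ i, ∑ j ∈ Finset.range (2 * g + 3), ψ (F.coeff j) *
        x i ^ j * z i ^ (2 * g + 2 - j) = 0) →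
      (∀ i j, i ≠ j → x i * z j - x j * z i ≠ 0) → ψ.IsIntegralElem (crossRatio x z)) (a : ℕ) :
    CrossI (ψ.comp (PhiK K r)) (flipW g G a) := by
  intro β hβ hβ0
  have hN0 : (N : Ω) ^ 2 ≠ 0 := pow_ne_zero _ (by exact_mod_cast hN.ne')
  have h1 := hPG (fun i => (a : Ω) * β i + 1) β (by
    intro i
    have h2 := hβ0 i
    rw [flipW_eval ψ g F N G hG hGd a] at h2
    exact (mul_eq_zero.1 h2).resolve_left hN0) (by
    intro i j hij
    have h3 : ((a : Ω) * β i + 1) * β j - ((a : Ω) * β j + 1) * β i = β j - β i := by ring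
    rw [h3]
    exact sub_ne_zero.2 (fun h => hij (hβ h.symm)))
  rw [crossRatio_flip] at h1
  exact int_up ψ _ h1

theorem pot_of_crossI (ψ : MvPolynomial (Fin r) K →+* Ω) (hψ : Function.Injective ψ) (g : ℕ)
    (F : (MvPolynomial (Fin r) K)[X])
    (N : ℕ) (hN : 0 < N) (G : (MvPolynomial (Fin r) (𝓞 K))[X])
    (hG : G.map (PhiK K r) = C ((N : MvPolynomial (Fin r) K) ^ 2) * F)
    (hGd : G.natDegree ≤ 2 * g + 2) (a : ℕ)
    (ha : G.eval (a : MvPolynomial (Fin r) (𝓞 K)) ≠ 0)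
    (h : CrossI (ψ.comp (PhiK K r)) (flipW g G a)) :
    ∀ x z : Fin 4 → Ω, (∀ i, ∑ j ∈ Finset.range (2 * g + 3), ψ (F.coeff j) *
        x i ^ j * z i ^ (2 * g + 2 - j) = 0) →
      (∀ i j, i ≠ j → x i * z j - x j * z i ≠ 0) → ψ.IsIntegralElem (crossRatio x z) := by
  intro x z hz hne
  have hFa : ∑ j ∈ Finset.range (2 * g + 3), ψ (F.coeff j) * (a : Ω) ^ j ≠ 0 := by
    intro h0
    apply ha
    apply PhiK_inj (K := K) r
    apply hψ
    rw [map_zero, map_zero]
    have h1 : ψ (PhiK K r (G.eval (a : MvPolynomial (Fin r) (𝓞 K)))) =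
        ((G.map (PhiK K r)).map ψ).eval (a : Ω) := by
      rw [eval_natCast_map, eval_natCast_map]
    rw [h1, hG, eval_eq_sum_range' (n := 2 * g + 3)]
    · have h2 : ∀ j, (map ψ (C ((N : MvPolynomial (Fin r) K) ^ 2) * F)).coeff j = (N : Ω) ^ 2 * ψ (F.coeff j) := by
        intro j
        rw [coeff_map, coeff_C_mul, map_mul ψ, map_pow ψ, map_natCast ψ]
      simp only [h2]
      rw [← mul_zero ((N : Ω) ^ 2), ← h0, Finset.mul_sum]
      exact Finset.sum_congr rfl fun j _ => by ring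
    · rw [← hG]
      exact lt_of_le_of_lt (natDegree_map_le.trans (natDegree_map_le.trans hGd)) (by omega)
  have hu : ∀ i, x i - (a : Ω) * z i ≠ 0 := by
    intro i h0
    have hx : x i = (a : Ω) * z i := sub_eq_zero.1 h0
    have h1 := hz i
    have h2 : ∑ j ∈ Finset.range (2 * g + 3), ψ (F.coeff j) * x i ^ j * z i ^ (2 * g + 2 - j) =
        z i ^ (2 * g + 2) * ∑ j ∈ Finset.range (2 * g + 3), ψ (F.coeff j) * (a : Ω) ^ j := by
      rw [Finset.mul_sum]
      apply Finset.sum_congr rfl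
      intro j hj
      rw [Finset.mem_range] at hj
      rw [hx, mul_pow]
      have h3 : z i ^ (2 * g + 2) = z i ^ j * z i ^ (2 * g + 2 - j) := by
        rw [← pow_add]; congr 1; omega
      rw [h3]; ring
    rw [h2] at h1
    have h4 : z i = 0 := by
      have := (mul_eq_zero.1 h1).resolve_right hFa
      exact pow_eq_zero_iff (by omega) |>.1 this
    rw [h4, mul_zero] at hx
    obtain ⟨j, hj⟩ : ∃ j : Fin 4, i ≠ j := by
      by_cases hi : i = 0
      · exact ⟨1, by rw [hi]; decide⟩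
      · exact ⟨0, hi⟩
    apply hne i j hj
    rw [h4, hx]; ring
  have hβ := h (fun i => z i / (x i - (a : Ω) * z i)) (by
    intro i j hij
    by_contra hne'
    apply hne i j hne'
    have h1 : z i / (x i - (a : Ω) * z i) = z j / (x j - (a : Ω) * z j) := hij
    rw [div_eq_div_iff (hu i) (hu j)] at h1
    linear_combination (-1 : Ω) * h1) (by
    intro i
    rw [flipW_eval ψ g F N G hG hGd a]
    have h1 : (a : Ω) * (z i / (x i - (a : Ω) * z i)) + 1 = x i / (x i - (a : Ω) * z i) := by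
      rw [eq_div_iff (hu i), add_mul, mul_assoc, div_mul_cancel₀ _ (hu i)]
      ring
    rw [h1]
    have h2 : (x i - (a : Ω) * z i) ^ (2 * g + 2) *
        ∑ j ∈ Finset.range (2 * g + 3), ψ (F.coeff j) * (x i / (x i - (a : Ω) * z i)) ^ j *
          (z i / (x i - (a : Ω) * z i)) ^ (2 * g + 2 - j) = 0 := by
      rw [Finset.mul_sum, ← hz i]
      apply Finset.sum_congr rfl
      intro j hj
      rw [Finset.mem_range] at hj
      have h3 : (x i - (a : Ω) * z i) ^ (2 * g + 2) =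
          (x i - (a : Ω) * z i) ^ j * (x i - (a : Ω) * z i) ^ (2 * g + 2 - j) := by
        rw [← pow_add]; congr 1; omega
      have h4 : x i ^ j = (x i / (x i - (a : Ω) * z i)) ^ j * (x i - (a : Ω) * z i) ^ j := by
        rw [← mul_pow, div_mul_cancel₀ _ (hu i)]
      have h5 : z i ^ (2 * g + 2 - j) = (z i / (x i - (a : Ω) * z i)) ^ (2 * g + 2 - j) *
          (x i - (a : Ω) * z i) ^ (2 * g + 2 - j) := by
        rw [← mul_pow, div_mul_cancel₀ _ (hu i)]
      rw [h3, h4, h5]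
      ring
    rw [(mul_eq_zero.1 h2).resolve_left (pow_ne_zero _ (hu i)), mul_zero])
  obtain ⟨n, hn, h1⟩ := hβ
  have h2 := int_down ψ _ n hn h1
  rw [crossRatio_unflip (a : Ω) x z hu]
  exact h2

end

end Pool.Agent.Lib.MP_ca2859_nt
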