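import Mathlib
import Pool.Agent.Lib.MP_ca2859_nt.PF.All
import Pool.Agent.Lib.MP_ca2859_nt.PF.Pot
import Pool.Agent.Lib.MP_ca2859_nt.PF.Disc
import Pool.Agent.Lib.MP_ca2859_nt.PF.Cross2

/-!
# The dichotomy for polynomial families
-/

open NumberField Polynomial IsDedekindDomain WithZero

set_option linter.unusedSectionVars false

namespace Pool.Agent.Lib.MP_ca2859_nt

section
variable {K : Type} [Field K] [NumberField K] {ι : Type} [Fintype ι]

theorem family_dichotomy (ω : Module.Basis ι ℤ (𝓞 K)) (r : ℕ) (hr : 0 < r) (g : ℕ) (hg : 1 ≤ g)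
    (F : (MvPolynomial (Fin r) K)[X])
    (hF : IsHyperelliptic g (F.map (algebraMap (MvPolynomial (Fin r) K)
      (FractionRing (MvPolynomial (Fin r) K))))) :
    (PotGood g F → ∃ c : ℝ, ∀ t : Fin r → 𝓞 K, IsHyperelliptic g (famMember F (fun i => (t i : K))) →
      (DeltaC g (famMember F (fun i => (t i : K))) : ℝ) ≤
        c * (MC g (famMember F (fun i => (t i : K))) : ℝ) ^ (2 * (2 * g + 1) * ((g + 1) / 2 + 1))) ∧
    (¬ PotGood g F → ∀ (w : Fin r → ℕ) (m : ℕ), 0 < m → (∀ i, m ≤ w i) →
      ∀ κ θ : ℝ, 0 < κ → (famDisc g F).weightedTotalDegree w / κ < θ → ∃ c : ℝ, ∀ H : ℕ, 1 ≤ H →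
      ((({t : Fin r → 𝓞 K | (∀ i j, |ω.repr (t i) j| ≤ (H : ℤ) ^ w i) ∧
        ¬ (IsHyperelliptic g (famMember F (fun i => (t i : K))) ∧
          (DeltaC g (famMember F (fun i => (t i : K))) : ℝ) ≤
            (MC g (famMember F (fun i => (t i : K))) : ℝ) ^ κ)}).ncard : ℕ) : ℝ) ≤
      c * (H : ℝ) ^ (Module.finrank ℚ K * (∑ i, (w i : ℝ) - m + θ))) := by
  obtain ⟨r', rfl⟩ : ∃ r', r = r' + 1 := ⟨r - 1, by omega⟩
  set B := MvPolynomial (Fin (r' + 1)) K with hB
  have hinjB : Function.Injective (algebraMap B (FractionRing B)) := IsFractionRing.injective _ _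
  have hFd : F.natDegree ≤ 2 * g + 2 := by
    have h1 := hF.2
    rw [natDegree_map_eq_of_injective hinjB] at h1
    omega
  obtain ⟨N, G, hN, hG⟩ := clear_family_sq F
  have hGd : G.natDegree ≤ 2 * g + 2 := by rw [clear_natDegree F N hN G hG]; exact hFd
  have hGR := clear_RR g hg F hF N hN G hG
  have hG0 : G ≠ 0 := by
    rintro rfl
    apply hGR
    rw [RR_eq_zero_of_lt (2 * g + 2) (by omega) _ (by rw [natDegree_zero]; omega)]
  obtain ⟨cr⟩ := exists_CRData g hg
  have hcase : ∀ (Ω : Type) [Field Ω] [IsAlgClosed Ω] (ψ : B →+* Ω), Function.Injective ψ →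
      ∀ a : ℕ, G.eval (a : MvPolynomial (Fin (r' + 1)) (𝓞 K)) ≠ 0 →
      (CaseData cr (flipW g G a) ↔ CrossI (ψ.comp (PhiK K (r' + 1))) (flipW g G a)) := by
    intro Ω _ _ ψ hψ a ha
    exact caseA_iff' g hg cr (flipW g G a) (flipW_natDegree g G hGd a)
      (by rw [flipW_coeff]; exact ha) (flipW_RR g G hGd hGR a) (ψ.comp (PhiK K (r' + 1)))
      (hψ.comp (PhiK_inj _))
  constructor
  · intro hP
    apply final_A g hg cr F hFd N hN G hG
    intro a ha
    set Ω := AlgebraicClosure (FractionRing B) with hΩ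
    have hψ : Function.Injective (algebraMap B Ω) := by
      rw [IsScalarTower.algebraMap_eq B (FractionRing B) Ω]
      exact (algebraMap (FractionRing B) Ω).injective.comp hinjB
    have hchar : CharZero Ω := charZero_of_injective_algebraMap hψ
    rw [hcase Ω (algebraMap B Ω) hψ a ha]
    exact crossI_of_pot (algebraMap B Ω) g F N hN G hG hGd (hP Ω (algebraMap B Ω) hψ) a
  · intro hnP w m hm hw κ θ hκ hθ
    obtain ⟨a₀, ha₀⟩ := exists_good_natW G hG0
    have hFd' : F.natDegree = 2 * g + 1 ∨ F.natDegree = 2 * g + 2 := by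
      have h1 := hF.2
      rw [natDegree_map_eq_of_injective hinjB] at h1
      exact h1
    refine final_B ω g hg cr F hFd N hN G hG hGR a₀ ha₀ ?_ w m hm hw
      ((famDisc g F).weightedTotalDegree w) ?_ κ θ hκ hθ
    · intro hc
      apply hnP
      intro Ω _ φ hφ x z hz hne
      set ι' := algebraMap Ω (AlgebraicClosure Ω) with hι'
      have hι : Function.Injective ι' := ι'.injective
      have hψ : Function.Injective (ι'.comp φ) := hι.comp hφ
      have hchar : CharZero (AlgebraicClosure Ω) :=
        charZero_of_injective_ringHom (f := ι'.comp φ) hψ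
      have h1 := (hcase (AlgebraicClosure Ω) (ι'.comp φ) hψ a₀ ha₀).1 hc
      have h2 := pot_of_crossI (ι'.comp φ) hψ g F N hN G hG hGd a₀ ha₀ h1
        (fun i => ι' (x i)) (fun i => ι' (z i)) (by
          intro i
          have h3 := congrArg ι' (hz i)
          rw [map_sum, map_zero] at h3
          rw [← h3]
          apply Finset.sum_congr rfl
          intro j _
          rw [map_mul, map_mul, map_pow, map_pow]
          rfl) (by
          intro i j hij h0
          apply hne i j hij
          apply hι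
          rw [map_sub, map_mul, map_mul, map_zero]
          exact h0)
      have h4 : crossRatio (fun i => ι' (x i)) (fun i => ι' (z i)) = ι' (crossRatio x z) := by
        rw [crossRatio, crossRatio, map_div₀, map_mul, map_mul, map_sub, map_sub, map_sub, map_sub]
        simp only [map_mul]
      rw [h4] at h2
      obtain ⟨p, hp, hpx⟩ := h2
      refine ⟨p, hp, hι ?_⟩
      rw [map_zero, hom_eval₂]
      exact hpx
    · intro s hs
      have h1 := MvPolynomial.le_weightedTotalDegree w (RR_support g hg F hFd' N G hG hs)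
      rw [Finsupp.weight_apply, Finsupp.sum_fintype _ _ (by simp)] at h1
      refine le_trans (le_of_eq ?_) h1
      exact Finset.sum_congr rfl fun j _ => by rw [smul_eq_mul, mul_comm]

end

end Pool.Agent.Lib.MP_ca2859_nt
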